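import Pool.Agent.Lib.MP_c23e5f_co.Basic
import Pool.Agent.Lib.MP_c23e5f_co.LoopLower

section

/-!
# MP_c23e5f_co: dense polygons are exponentially rare, definitions

A polygon in a box of `w` columns and `h` rows is read row by row.  In the row of index `j` the site
`(i, j)` is described by a letter `(d, r)`: `d` says whether the edge from `(i, j)` to `(i, j+1)` is
present, `r` whether the edge from `(i, j)` to `(i+1, j)` is present.
-/

set_option autoImplicit false

namespace Pool.Agent.Lib.MP_c23e5f_co.W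

/-- The transition of the automaton.
First argument, the state: `0` no edge from the left; `1` an edge from the left;
`2` an edge from the left, and the site to the left has the letter `(true, true)`.
Second argument, the type of the site: `0` no edge from the previous row;
`1` an edge from the previous row; `2` an edge from the previous row, whose other end is joined to
the left to a site which also has an edge to the current row (a cap).
Third argument: the letter `(d, r)`.
Result: the next state, and the type of the site above in the next row. -/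
def tr : Fin 3 → Fin 3 → Bool × Bool → Option (Fin 3 × Fin 3)
  | 0, 0, (false, false) => some (0, 0)
  | 0, 0, (true, true) => some (2, 1)
  | 1, 0, (true, false) => some (0, 1)
  | 1, 0, (false, true) => some (1, 0)
  | 2, 0, (true, false) => some (0, 2)
  | 2, 0, (false, true) => some (1, 0)
  | 0, 1, (true, false) => some (0, 1)
  | 0, 1, (false, true) => some (1, 0)
  | 1, 1, (false, false) => some (0, 0)
  | 2, 1, (false, false) => some (0, 0)
  | 0, 2, (true, false) => some (0, 1)
  | 0, 2, (false, true) => some (1, 0)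
  | _, _, _ => none

/-- reading a row: state, types of the row, letters of the row; the result is the list of the types
of the next row -/
def run : Fin 3 → List (Fin 3) → List (Bool × Bool) → Option (List (Fin 3))
  | s, [], [] => if s = 0 then some [] else none
  | s, t :: τ, c :: D => (tr s t c).bind fun p => (run p.1 τ D).map (p.2 :: ·)
  | _, _, _ => none

/-- reading all the rows -/
def runs : List (Fin 3) → List (List (Bool × Bool)) → Bool
  | τ, [] => τ.all (· == 0)
  | τ, D :: A => match run 0 τ D with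
    | none => false
    | some τ' => runs τ' A

/-- the number of edges of a letter -/
def cost (c : Bool × Bool) : ℕ := c.1.toNat + c.2.toNat

/-- the number of edges of a row -/
def rowCost (D : List (Bool × Bool)) : ℕ := (D.map cost).sum

/-- the number of edges of an array -/
def totCost (A : List (List (Bool × Bool))) : ℕ := (A.map rowCost).sum

/-- all the rows of length `w` -/
def rowsOf : ℕ → Finset (List (Bool × Bool))
  | 0 => {[]}
  | w + 1 => (Finset.univ ×ˢ rowsOf w).image fun p => p.1 :: p.2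

/-- all the arrays of `h` rows of length `w` -/
def arrs (w : ℕ) : ℕ → Finset (List (List (Bool × Bool)))
  | 0 => {[]}
  | h + 1 => (rowsOf w ×ˢ arrs w h).image fun p => p.1 :: p.2

/-- in a list of types, a `2` comes immediately after a `1` -/
def Valid : List (Fin 3) → Prop
  | [] => True
  | t :: τ => Valid τ ∧ (τ.head? = some 2 → t = 1)

/-- the fugacity -/
noncomputable def fx : ℝ := 27 / 50

/-- the growth of the partition function per site -/
noncomputable def lam : ℝ := 233 / 200

/-- the weight of a type -/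
noncomputable def wty : Fin 3 → ℝ
  | 0 => 1
  | 1 => 13 / 15
  | 2 => 13 / 20

/-- the weight of a list of types -/
noncomputable def wts (τ : List (Fin 3)) : ℝ := (τ.map wty).prod

/-! ### edges of a loop -/

/-- `p` and `q` are joined by an edge of the path -/
def Edge (f : ℕ → ℤ × ℤ) (p q : ℤ × ℤ) : Prop :=
  ∃ i, (f i = p ∧ f (i + 1) = q) ∨ (f i = q ∧ f (i + 1) = p)

open Classical in
/-- the edge from `(i, j)` to `(i, j + 1)` -/
noncomputable def vE (f : ℕ → ℤ × ℤ) (i j : ℤ) : Bool := decide (Edge f (i, j) (i, j + 1))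

open Classical in
/-- the edge from `(i, j)` to `(i + 1, j)` -/
noncomputable def hE (f : ℕ → ℤ × ℤ) (i j : ℤ) : Bool := decide (Edge f (i, j) (i + 1, j))

/-- the row `j` of the array of a path -/
noncomputable def rowArr (f : ℕ → ℤ × ℤ) (w j : ℕ) : List (Bool × Bool) :=
  (List.range w).map fun i => (vE f i j, hE f i j)

/-- the array of a path -/
noncomputable def arr (f : ℕ → ℤ × ℤ) (w h : ℕ) : List (List (Bool × Bool)) :=
  (List.range h).map fun j => rowArr f w j

end Pool.Agent.Lib.MP_c23e5f_co.W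
end

section

/-!
# MP_c23e5f_co: finite sets of irreducible bridges

`IsIrr w`: the word is a bridge of positive length in the direction `Z1` without an inner renewal time.

Proof of `code_le_one`: let `S = ∑ w ∈ I, x ^ w.length` and let `P k` be the set of the concatenations of
`k` words of `I`.  (1) an element of `P k` is a bridge of height at most `k M`, where `M` bounds
the lengths of the words of `I`.  (2) If `u ++ v = u' ++ v'` with `u, u' ∈ I`, `v ∈ P k`, `v' ∈ P k`,
then `u = u'`: if say `u.length < u'.length` then `u.length` is a renewal time of `u'`: for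
`j ≤ u.length` we have `Z1 (pos u' j) = Z1 (pos u j) ≤ Z1 u.sum`, and for `j > u.length`,
`Z1 (pos u' j) = Z1 u.sum + Z1 (pos v (j - u.length)) > Z1 u.sum` as `v` is a bridge.
(3) by `wt_mul_le_of_injOn`, `S ^ k ≤ wt x (P k)`, and by `wt_bridge_le_one`
`wt x (P k) ≤ ∑ T ≤ k M, wt x {bridges of height T} ≤ k M + 1`.  If `S > 1` this is false for large `k`.
-/

set_option autoImplicit false

namespace Pool.Agent.Lib.MP_c23e5f_co.W

open scoped ENNReal

/-- irreducible bridges -/
structure IsIrr (w : List (ℤ × ℤ)) : Prop where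
  ne : w ≠ []
  br : ∃ T : ℕ, IsBridge Z1 T w
  irr : ∀ i, 1 ≤ i → i < w.length →
    (∃ j, j ≤ i ∧ Z1 (pos w i) < Z1 (pos w j)) ∨
      (∃ j, i < j ∧ j ≤ w.length ∧ Z1 (pos w j) ≤ Z1 (pos w i))

private lemma codeBridgeAppend {F : ℤ × ℤ →+ ℤ} {T T' : ℕ} {u v : List (ℤ × ℤ)}
    (hu : IsBridge F T u) (hv : IsBridge F T' v) : IsBridge F (T + T') (u ++ v) := by
  have hT : (((T + T' : ℕ)) : ℤ) = T + (T' : ℤ) := by push_cast; ring
  refine ⟨IsSaw.append hu.saw hv.saw ?_, ?_, ?_, ?_⟩
  · intro i j hi hj1 hj h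
    have h1 := hu.le i hi
    have h2 := hv.gt j hj1 hj
    have h3 := congrArg F h
    rw [map_add, hu.ht] at h3
    omega
  · intro i hi1 hi
    rw [List.length_append] at hi
    rcases le_or_gt i u.length with h | h
    · rw [pos_append_left h]; exact hu.gt i hi1 h
    · rw [pos_append_right' h.le, map_add, hu.ht]
      have := hv.gt (i - u.length) (by omega) (by omega)
      omega
  · intro i hi
    rw [List.length_append] at hi
    rw [hT]
    rcases le_or_gt i u.length with h | h
    · rw [pos_append_left h]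
      have := hu.le i h
      omega
    · rw [pos_append_right' h.le, map_add, hu.ht]
      have := hv.le (i - u.length) (by omega)
      omega
  · rw [List.sum_append, map_add, hu.ht, hv.ht, hT]

private lemma codeZ1_sum_le {w : List (ℤ × ℤ)} (hw : ∀ v ∈ w, IsStep v) :
    Z1 w.sum ≤ (w.length : ℤ) := by
  induction w with
  | nil => simp
  | cons a w ih =>
    have h1 := ih fun v hv => hw v (List.mem_cons_of_mem _ hv)
    have h2 := isForm_Z1 a (hw a List.mem_cons_self)
    rw [List.sum_cons, map_add, List.length_cons]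
    push_cast
    rw [abs_le] at h2
    omega

/-- concatenations of `k` words of `I` -/
private def codeP (I : Finset (List (ℤ × ℤ))) : ℕ → Set (List (ℤ × ℤ))
  | 0 => {[]}
  | k + 1 => {w | ∃ u ∈ I, ∃ v ∈ codeP I k, w = u ++ v}

private lemma codeP_bridge {I : Finset (List (ℤ × ℤ))} (hI : ∀ w ∈ I, IsIrr w) :
    ∀ (k : ℕ) (w : List (ℤ × ℤ)), w ∈ codeP I k →
      ∃ T : ℕ, T ≤ k * I.sup List.length ∧ IsBridge Z1 T w := by
  intro k
  induction k with
  | zero =>
    intro w hw
    have hw : w = [] := hw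
    subst hw
    exact ⟨0, by simp, isSaw_nil, fun i h1 h2 => by simp at h2; omega, fun i hi => by simp [pos],
      by simp⟩
  | succ k ih =>
    rintro w ⟨u, hu, v, hv, rfl⟩
    obtain ⟨T', hT', hv'⟩ := ih v hv
    obtain ⟨T, hT⟩ := (hI u hu).br
    refine ⟨T + T', ?_, codeBridgeAppend hT hv'⟩
    have h1 := codeZ1_sum_le hT.saw.step
    rw [hT.ht] at h1
    have h2 : u.length ≤ I.sup List.length := Finset.le_sup (f := List.length) hu
    have h3 : T ≤ u.length := by exact_mod_cast h1
    rw [add_mul, one_mul]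
    omega

private lemma codeLen {u u' v v' : List (ℤ × ℤ)} (hu : IsIrr u) (hu' : IsIrr u') {T : ℕ}
    (hv : IsBridge Z1 T v) (h : u ++ v = u' ++ v') : u'.length ≤ u.length := by
  by_contra hlt
  push Not at hlt
  obtain ⟨Tu, hTu⟩ := hu.br
  have hpos : ∀ j, j ≤ u'.length → pos u' j = pos (u ++ v) j := by
    intro j hj
    rw [h, pos_append_left hj]
  have hlen := congrArg List.length h
  rw [List.length_append, List.length_append] at hlen
  have hu1 : 1 ≤ u.length := by
    rcases u with _ | ⟨a, u⟩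
    · exact absurd rfl hu.ne
    · simp
  have hi : pos u' u.length = u.sum := by
    rw [hpos _ hlt.le, pos_append_left le_rfl, pos_length]
  rcases hu'.irr u.length hu1 hlt with ⟨j, hj, hj2⟩ | ⟨j, hj, hj2, hj3⟩
  · rw [hi, hpos j (by omega), pos_append_left hj, hTu.ht] at hj2
    have := hTu.le j hj
    omega
  · rw [hi, hpos j hj2, pos_append_right' hj.le, map_add] at hj3
    have := hv.gt (j - u.length) (by omega) (by omega)
    omega

private lemma codeInj {I : Finset (List (ℤ × ℤ))} (hI : ∀ w ∈ I, IsIrr w) (k : ℕ) :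
    ∀ u ∈ (I : Set (List (ℤ × ℤ))), ∀ v ∈ codeP I k, ∀ u' ∈ (I : Set (List (ℤ × ℤ))),
      ∀ v' ∈ codeP I k, u ++ v = u' ++ v' → u = u' := by
  intro u hu v hv u' hu' v' hv' h
  obtain ⟨T, -, hT⟩ := codeP_bridge hI k v hv
  obtain ⟨T', -, hT'⟩ := codeP_bridge hI k v' hv'
  have h1 := codeLen (hI u hu) (hI u' hu') hT h
  have h2 := codeLen (hI u' hu') (hI u hu) hT' h.symm
  exact List.append_inj_left h (le_antisymm h2 h1)

private lemma codePow (x : ℝ≥0∞) {I : Finset (List (ℤ × ℤ))} (hI : ∀ w ∈ I, IsIrr w) (k : ℕ) :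
    (∑ w ∈ I, x ^ w.length) ^ k ≤ wt x (codeP I k) := by
  have hS : ∑ w ∈ I, x ^ w.length = wt x (I : Set (List (ℤ × ℤ))) := by
    unfold wt
    rw [Finset.tsum_subtype' I (fun w : List (ℤ × ℤ) => x ^ w.length)]
  induction k with
  | zero =>
    rw [pow_zero]
    have : codeP I 0 = {[]} := rfl
    rw [this, wt_singleton_nil]
  | succ k ih =>
    rw [pow_succ']
    refine (mul_le_mul_right ih _).trans ?_
    rw [hS]
    refine wt_mul_le_of_injOn x _ _ _ ?_ (codeInj hI k)
    intro u hu v hv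
    exact ⟨u, hu, v, hv, rfl⟩

private lemma codeUpper {x : ℝ≥0∞} (hx : IsCrit x) {I : Finset (List (ℤ × ℤ))}
    (hI : ∀ w ∈ I, IsIrr w) (k : ℕ) :
    wt x (codeP I k) ≤ ((k * I.sup List.length + 1 : ℕ) : ℝ≥0∞) := by
  have h1 : codeP I k ⊆ ⋃ T ∈ Finset.range (k * I.sup List.length + 1),
      {w | IsBridge Z1 T w} := by
    intro w hw
    obtain ⟨T, hT, hb⟩ := codeP_bridge hI k w hw
    simp only [Set.mem_iUnion, Finset.mem_range]
    exact ⟨T, by omega, hb⟩
  refine (wt_mono h1).trans ((wt_biUnion_le x _ _).trans ?_)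
  refine (Finset.sum_le_sum fun T _ => wt_bridge_le_one hx Z1 T).trans ?_
  simp

theorem code_le_one {x : ℝ≥0∞} (hx : IsCrit x) (I : Finset (List (ℤ × ℤ)))
    (hI : ∀ w ∈ I, IsIrr w) : ∑ w ∈ I, x ^ w.length ≤ 1 := by
  by_contra hS
  push Not at hS
  set S := ∑ w ∈ I, x ^ w.length with hSd
  set M := I.sup List.length with hM
  have hfin : S ≠ ⊤ := by
    rw [hSd]
    refine (ENNReal.sum_lt_top.2 fun w _ => ?_).ne
    exact ENNReal.pow_lt_top (lt_of_le_of_lt hx.le_one ENNReal.one_lt_top)
  have h1 : ∀ k : ℕ, S ^ k ≤ ((k * M + 1 : ℕ) : ℝ≥0∞) := fun k =>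
    (codePow x hI k).trans (codeUpper hx hI k)
  set s := S.toReal with hs
  have hs1 : 1 < s := by
    rw [hs, ← ENNReal.toReal_one]
    exact (ENNReal.toReal_lt_toReal ENNReal.one_ne_top hfin).2 hS
  have h2 : ∀ k : ℕ, s ^ k ≤ k * M + 1 := by
    intro k
    have := ENNReal.toReal_mono (ENNReal.natCast_ne_top _) (h1 k)
    rw [ENNReal.toReal_pow, ENNReal.toReal_natCast] at this
    exact_mod_cast this
  have h3 : Filter.Tendsto (fun n : ℕ => (M : ℝ) * ((n : ℝ) ^ 1 / s ^ n) + (n : ℝ) ^ 0 / s ^ n)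
      Filter.atTop (nhds (M * 0 + 0)) :=
    ((tendsto_pow_const_div_const_pow_of_one_lt 1 hs1).const_mul _).add
      (tendsto_pow_const_div_const_pow_of_one_lt 0 hs1)
  have h4 : (1 : ℝ) ≤ M * 0 + 0 := by
    refine ge_of_tendsto h3 (Filter.Eventually.of_forall fun n => ?_)
    have hpos : 0 < s ^ n := by positivity
    have h5 := h2 n
    have h6 : (M : ℝ) * ((n : ℝ) ^ 1 / s ^ n) + (n : ℝ) ^ 0 / s ^ n = (n * M + 1) / s ^ n := by
      field_simp
    rw [h6, le_div_iff₀ hpos, one_mul]
    exact h5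
  norm_num at h4

end Pool.Agent.Lib.MP_c23e5f_co.W
end

section

/-!
# MP_c23e5f_co: the edges of a loop satisfy the local rules of the automaton

The state at `(i, j)` is `0` if there is no edge `(i-1, j) - (i, j)`, `2` if moreover the site
`(i-1, j)` has an edge to `(i-1, j+1)`, and `1` otherwise.  The type at `(i, j)` is `0` if there is no
edge `(i, j-1) - (i, j)`, `2` if the edges `(i-1, j-1) - (i, j-1)` and `(i-1, j-1) - (i-1, j)` are also
present, and `1` otherwise.

Proof: let `f` be a loop of length `N ≥ 5`.  For a site `p` visited at the time `k` (one may take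
`N ≤ k`, by periodicity), `Edge f p q ↔ q = f (k+1) ∨ q = f (k-1)` (if `f m = p` then
`m % N = k % N` by injectivity, and `f` has period `N`), and `f (k+1) ≠ f (k-1)` as `N ≥ 3`.
So among the four edges of `p` there are either none or exactly two (all the cases of the table
`tr` with `u + l + d + r ≠ 0, 2` are excluded).  The only other excluded case of the table is
type `2` with an edge from the left: then the four edges of the unit square with the corners
`(i-1, j-1), (i, j-1), (i, j), (i-1, j)` are present, so the loop has length 4: if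
`f k = (i-1, j-1)`, then `f (k+1)` is `(i, j-1)` or `(i-1, j)`, `f (k+2) = (i, j)`,
`f (k+3)` is the fourth corner and `f (k+4) = f k`, contradiction with `N ≥ 5`.
-/

set_option autoImplicit false

namespace Pool.Agent.Lib.MP_c23e5f_co.W

/-- the state -/
noncomputable def stE (f : ℕ → ℤ × ℤ) (i j : ℤ) : Fin 3 :=
  if hE f (i - 1) j then (if vE f (i - 1) j then 2 else 1) else 0

/-- the type -/
noncomputable def tyE (f : ℕ → ℤ × ℤ) (i j : ℤ) : Fin 3 :=
  if vE f i (j - 1) then (if hE f (i - 1) (j - 1) && vE f (i - 1) (j - 1) then 2 else 1) else 0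

private lemma loop_mod {N : ℕ} {f : ℕ → ℤ × ℤ} (hf : IsLoop N f) (k : ℕ) : f (k % N) = f k := by
  have h : ∀ m r, f (r + N * m) = f r := by
    intro m
    induction m with
    | zero => intro r; simp
    | succ m ih => intro r; rw [Nat.mul_succ, ← Nat.add_assoc, hf.per, ih]
  conv_rhs => rw [← Nat.mod_add_div k N, h]

private lemma loop_eq {N : ℕ} (hN : 0 < N) {f : ℕ → ℤ × ℤ} (hf : IsLoop N f) {a b : ℕ}
    (h : f a = f b) : a ≡ b [MOD N] := by
  rw [← loop_mod hf a, ← loop_mod hf b] at h
  exact hf.inj _ _ (Nat.mod_lt _ hN) (Nat.mod_lt _ hN) h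

private lemma loop_congr {N : ℕ} {f : ℕ → ℤ × ℤ} (hf : IsLoop N f) {a b : ℕ}
    (h : a ≡ b [MOD N]) : f a = f b := by
  rw [← loop_mod hf a, ← loop_mod hf b, h]

private lemma edge_iff {N : ℕ} (hN : 0 < N) {f : ℕ → ℤ × ℤ} (hf : IsLoop N f) (k : ℕ)
    (q : ℤ × ℤ) : Edge f (f (k + 1)) q ↔ q = f (k + 2) ∨ q = f k := by
  constructor
  · rintro ⟨i, ⟨h1, h2⟩ | ⟨h1, h2⟩⟩
    · left
      rw [← h2]
      exact loop_congr hf ((loop_eq hN hf h1).add_right 1)
    · right
      rw [← h1]
      exact loop_congr hf (Nat.ModEq.add_right_cancel' 1 (loop_eq hN hf h2))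
  · rintro (h | h)
    · exact ⟨k + 1, Or.inl ⟨rfl, h.symm⟩⟩
    · exact ⟨k, Or.inr ⟨h.symm, rfl⟩⟩

private lemma edge_symm {f : ℕ → ℤ × ℤ} {p q : ℤ × ℤ} : Edge f p q ↔ Edge f q p := by
  constructor
  · rintro ⟨i, h | h⟩
    · exact ⟨i, Or.inr h⟩
    · exact ⟨i, Or.inl h⟩
  · rintro ⟨i, h | h⟩
    · exact ⟨i, Or.inr h⟩
    · exact ⟨i, Or.inl h⟩

private lemma edge_visit {N : ℕ} {f : ℕ → ℤ × ℤ} (hf : IsLoop N f) (hN : 0 < N)
    {p q : ℤ × ℤ} (h : Edge f p q) : ∃ k, f (k + 1) = p := by
  obtain ⟨i, ⟨h1, -⟩ | ⟨-, h2⟩⟩ := h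
  · refine ⟨i + (N - 1), ?_⟩
    rw [show i + (N - 1) + 1 = i + N by omega, hf.per, h1]
  · exact ⟨i, h2⟩

private lemma loop_ne {N : ℕ} (hN : 5 ≤ N) {f : ℕ → ℤ × ℤ} (hf : IsLoop N f) (k c : ℕ)
    (hc0 : 0 < c) (hc : c < 5) : f (k + c) ≠ f k := by
  intro h
  have h1 := loop_eq (by omega) hf h
  have h2 : c ≡ 0 [MOD N] := by
    have : k + c ≡ k + 0 [MOD N] := by simpa using h1
    exact Nat.ModEq.add_left_cancel' k this
  have h3 := (Nat.modEq_zero_iff_dvd.1 h2)
  have := Nat.le_of_dvd hc0 h3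
  omega

private lemma no_square {N : ℕ} (hN : 5 ≤ N) {f : ℕ → ℤ × ℤ} (hf : IsLoop N f)
    {A B C D : ℤ × ℤ} (hBD : B ≠ D) (hAC : A ≠ C) (h1 : Edge f A B) (h2 : Edge f A D)
    (h3 : Edge f B C) (h4 : Edge f D C) : False := by
  have hN0 : 0 < N := by omega
  obtain ⟨k0, hk0⟩ := edge_visit hf hN0 h1
  -- shift
  obtain ⟨k, hk⟩ : ∃ k, f (k + 2) = A := by
    refine ⟨k0 + (N - 1), ?_⟩
    rw [show k0 + (N - 1) + 2 = k0 + 1 + N by omega, hf.per, hk0]
  have e1 := (edge_iff hN0 hf (k + 1) B).1 (by rw [hk]; exact h1)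
  have e2 := (edge_iff hN0 hf (k + 1) D).1 (by rw [hk]; exact h2)
  have key : ∀ X Y : ℤ × ℤ, X = f (k + 3) → Y = f (k + 1) → Edge f X C → Edge f Y C → False := by
    intro X Y hX hY hXC hYC
    rw [hX] at hXC
    rw [hY] at hYC
    have a1 := (edge_iff hN0 hf (k + 2) C).1 hXC
    have a2 := (edge_iff hN0 hf k C).1 hYC
    rcases a1 with a1 | a1
    · rcases a2 with a2 | a2
      · exact hAC (by rw [a2, ← hk])
      · exact loop_ne hN hf k 4 (by norm_num) (by norm_num) (by
          rw [← a2, a1])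
    · exact hAC (by rw [a1, ← hk])
  rcases e1 with e1 | e1
  · rcases e2 with e2 | e2
    · exact hBD (by rw [e1, e2])
    · exact key B D e1 e2 h3 h4
  · rcases e2 with e2 | e2
    · exact key D B e2 e1 h4 h3
    · exact hBD (by rw [e1, e2])

private lemma step_cases {u v : ℤ × ℤ} (h : IsStep (v - u)) :
    v = (u.1 + 1, u.2) ∨ v = (u.1 - 1, u.2) ∨ v = (u.1, u.2 + 1) ∨ v = (u.1, u.2 - 1) := by
  obtain ⟨a, b⟩ := u
  obtain ⟨c, d⟩ := v
  simp only [IsStep, Prod.mk_sub_mk, Prod.mk.injEq] at *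
  omega

private lemma deg {N : ℕ} (hN : 5 ≤ N) {f : ℕ → ℤ × ℤ} (hf : IsLoop N f) (i j : ℤ) :
    (vE f i (j - 1)).toNat + (hE f (i - 1) j).toNat + (vE f i j).toNat + (hE f i j).toNat = 0 ∨
    (vE f i (j - 1)).toNat + (hE f (i - 1) j).toNat + (vE f i j).toNat + (hE f i j).toNat = 2 := by
  classical
  have hN0 : 0 < N := by omega
  have hu : vE f i (j - 1) = decide (Edge f (i, j) (i, j - 1)) := by
    rw [vE, decide_eq_decide, sub_add_cancel]
    exact edge_symm
  have hl : hE f (i - 1) j = decide (Edge f (i, j) (i - 1, j)) := by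
    rw [hE, decide_eq_decide, sub_add_cancel]
    exact edge_symm
  have hd : vE f i j = decide (Edge f (i, j) (i, j + 1)) := by
    rw [vE, decide_eq_decide]
  have hr : hE f i j = decide (Edge f (i, j) (i + 1, j)) := by
    rw [hE, decide_eq_decide]
  rw [hu, hl, hd, hr]
  by_cases hv : ∃ k, f (k + 1) = (i, j)
  · right
    obtain ⟨k, hk⟩ := hv
    have s1 : IsStep (f (k + 2) - (i, j)) := by rw [← hk]; exact hf.step (k + 1)
    have s2 : IsStep ((i, j) - f k) := by rw [← hk]; exact hf.step k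
    have s2' : IsStep (f k - (i, j)) := by
      generalize f k = q at s2
      obtain ⟨a, b⟩ := q
      simp only [IsStep, Prod.mk_sub_mk] at *
      omega
    have hne : f (k + 2) ≠ f k := loop_ne hN hf k 2 (by norm_num) (by norm_num)
    have hE' : ∀ q, Edge f (i, j) q ↔ q = f (k + 2) ∨ q = f k := by
      intro q; rw [← hk]; exact edge_iff hN0 hf k q
    simp only [hE']
    have c1 := step_cases s1
    have c2 := step_cases s2'
    generalize f (k + 2) = q1 at *
    generalize f k = q2 at *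
    have n1 : i + 1 ≠ i := by omega
    have n2 : i - 1 ≠ i := by omega
    have n3 : i ≠ i + 1 := by omega
    have n4 : i ≠ i - 1 := by omega
    have n5 : j + 1 ≠ j := by omega
    have n6 : j - 1 ≠ j := by omega
    have n7 : j ≠ j + 1 := by omega
    have n8 : j ≠ j - 1 := by omega
    have n9 : i + 1 ≠ i - 1 := by omega
    have n10 : i - 1 ≠ i + 1 := by omega
    have n11 : j + 1 ≠ j - 1 := by omega
    have n12 : j - 1 ≠ j + 1 := by omega
    rcases c1 with rfl | rfl | rfl | rfl <;> rcases c2 with rfl | rfl | rfl | rfl <;>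
      first
        | exact absurd rfl hne
        | (simp only [Prod.mk.injEq, n1, n2, n3, n4, n5, n6, n7, n8, n9, n10, n11, n12, and_true,
            and_false, or_false, or_true, and_self, or_self,
            decide_true, decide_false, Bool.toNat_true, Bool.toNat_false])
  · left
    have hE' : ∀ q, ¬ Edge f (i, j) q := fun q h => hv (edge_visit hf hN0 h)
    simp [hE']

private lemma table (u l d r m n o : Bool)
    (h : u.toNat + l.toNat + d.toNat + r.toNat = 0 ∨ u.toNat + l.toNat + d.toNat + r.toNat = 2)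
    (hs : (u && l && n && o) = false) :
    tr (if l then (if m then 2 else 1) else 0) (if u then (if n && o then 2 else 1) else 0) (d, r) =
      some ((if r then (if d then 2 else 1) else 0), (if d then (if l && m then 2 else 1) else 0)) := by
  revert h hs
  revert u l d r m n o
  decide

theorem tr_edge {N : ℕ} (hN : 5 ≤ N) {f : ℕ → ℤ × ℤ} (hf : IsLoop N f) (i j : ℤ) :
    tr (stE f i j) (tyE f i j) (vE f i j, hE f i j) = some (stE f (i + 1) j, tyE f i (j + 1)) := by
  have h1 := deg hN hf i j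
  have h2 : (vE f i (j - 1) && hE f (i - 1) j && hE f (i - 1) (j - 1) && vE f (i - 1) (j - 1)) =
      false := by
    by_contra hc
    rw [Bool.not_eq_false] at hc
    simp only [Bool.and_eq_true, vE, hE, decide_eq_true_eq, sub_add_cancel] at hc
    obtain ⟨⟨⟨a, b⟩, c⟩, d⟩ := hc
    refine no_square hN hf (A := (i - 1, j - 1)) (B := (i, j - 1)) (C := (i, j)) (D := (i - 1, j))
      ?_ ?_ c d a b
    · intro h
      have h' : i = i - 1 := congrArg Prod.fst h
      omega
    · intro h
      have h' : i - 1 = i := congrArg Prod.fst h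
      omega
  have h3 := table _ _ (vE f i j) (hE f i j) (vE f (i - 1) j) _ _ h1 h2
  rw [stE, tyE, h3, stE, tyE]
  simp only [add_sub_cancel_right]

end Pool.Agent.Lib.MP_c23e5f_co.W
end

section

/-!
# MP_c23e5f_co: the loops of the problem, the width and the height, symmetry
-/

set_option autoImplicit false

namespace Pool.Agent.Lib.MP_c23e5f_co.W

/-- the loops of the problem -/
def LoopsW (n : ℕ) : Set (ℕ → ℤ × ℤ) :=
  {f : ℕ → ℤ × ℤ | f 0 = (0, 0) ∧ (∀ i, f (i + 2 * n) = f i) ∧
    (∀ i j, i < 2 * n → j < 2 * n → f i = f j → i = j) ∧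
    (∀ i, ((f i).1 - (f (i + 1)).1).natAbs + ((f i).2 - (f (i + 1)).2).natAbs = 1)}

/-- the width of the problem -/
def wid (n : ℕ) (f : ℕ → ℤ × ℤ) : ℕ :=
  ((Finset.range (2 * n)) ×ˢ (Finset.range (2 * n))).sup
    (fun p : ℕ × ℕ => ((f p.1).1 - (f p.2).1).natAbs)

/-- the height -/
def hgt (n : ℕ) (f : ℕ → ℤ × ℤ) : ℕ :=
  ((Finset.range (2 * n)) ×ˢ (Finset.range (2 * n))).sup
    (fun p : ℕ × ℕ => ((f p.1).2 - (f p.2).2).natAbs)

theorem loopsW_eq (n : ℕ) : LoopsW n = {f | IsLoop (2 * n) f ∧ f 0 = 0} := by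
  ext f
  constructor
  · rintro ⟨h0, h1, h2, h3⟩
    refine ⟨⟨fun i => ?_, h1, h2⟩, h0⟩
    have := h3 i
    simp only [IsStep, Prod.fst_sub, Prod.snd_sub]
    omega
  · rintro ⟨⟨h3, h1, h2⟩, h0⟩
    refine ⟨h0, h1, h2, fun i => ?_⟩
    have := h3 i
    simp only [IsStep, Prod.fst_sub, Prod.snd_sub] at this
    omega

theorem loopsW_finite {n : ℕ} (hn : 1 ≤ n) : (LoopsW n).Finite := by
  rw [loopsW_eq]
  exact finite_loops (by omega)

/-- the exchange of coordinates of a path -/
private def lsw (f : ℕ → ℤ × ℤ) : ℕ → ℤ × ℤ := fun i => (f i).swap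

private lemma lsw_lsw (f : ℕ → ℤ × ℤ) : lsw (lsw f) = f := by
  funext i
  simp [lsw]

private lemma lsw_mem {n : ℕ} {f : ℕ → ℤ × ℤ} (hf : f ∈ LoopsW n) : lsw f ∈ LoopsW n := by
  obtain ⟨h0, h1, h2, h3⟩ := hf
  refine ⟨by simp [lsw, h0], fun i => by simp [lsw, h1 i], fun i j hi hj h => ?_, fun i => ?_⟩
  · exact h2 i j hi hj (Prod.swap_injective h)
  · have := h3 i
    simp only [lsw, Prod.fst_swap, Prod.snd_swap]
    omega

private lemma wid_lsw (n : ℕ) (f : ℕ → ℤ × ℤ) : wid n (lsw f) = hgt n f := rfl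

private lemma hgt_lsw (n : ℕ) (f : ℕ → ℤ × ℤ) : hgt n (lsw f) = wid n f := rfl

/-- the exchange of the two coordinates is a bijection of the loops, which exchanges width and
height -/
theorem sum_wid_eq_sum_hgt {n : ℕ} (hn : 1 ≤ n) :
    ∑ f ∈ (loopsW_finite hn).toFinset, (wid n f : ℝ) =
      ∑ f ∈ (loopsW_finite hn).toFinset, (hgt n f : ℝ) := by
  refine Finset.sum_nbij' lsw lsw ?_ ?_ ?_ ?_ ?_
  · intro f hf
    rw [Set.Finite.mem_toFinset] at hf ⊢
    exact lsw_mem hf
  · intro f hf
    rw [Set.Finite.mem_toFinset] at hf ⊢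
    exact lsw_mem hf
  · intro f _
    exact lsw_lsw f
  · intro f _
    exact lsw_lsw f
  · intro f _
    rw [hgt_lsw]

theorem ncard_swap {n : ℕ} (a b : ℕ) :
    {f ∈ LoopsW n | wid n f = a ∧ hgt n f = b}.ncard =
      {f ∈ LoopsW n | wid n f = b ∧ hgt n f = a}.ncard := by
  have h : {f ∈ LoopsW n | wid n f = b ∧ hgt n f = a} =
      lsw '' {f ∈ LoopsW n | wid n f = a ∧ hgt n f = b} := by
    ext f
    constructor
    · rintro ⟨hf, h1, h2⟩
      exact ⟨lsw f, ⟨lsw_mem hf, h2, h1⟩, lsw_lsw f⟩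
    · rintro ⟨g, ⟨hg, h1, h2⟩, rfl⟩
      exact ⟨lsw_mem hg, h2, h1⟩
  rw [h]
  exact (Set.ncard_image_of_injective _
    (Function.LeftInverse.injective (g := lsw) lsw_lsw)).symm

private lemma lsw_offset {n : ℕ} (hn : 1 ≤ n) {g : ℕ → ℤ} (hper : ∀ i, g (i + 2 * n) = g i)
    {W : ℕ} (hW : ∀ i j, i < 2 * n → j < 2 * n → (g i - g j).natAbs ≤ W) :
    ∃ o : ℤ, ∀ i, 0 ≤ g i + o ∧ g i + o ≤ W := by
  obtain ⟨i₀, hi₀, hmin⟩ := Finset.exists_min_image (Finset.range (2 * n)) g
    ⟨0, Finset.mem_range.2 (by omega)⟩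
  rw [Finset.mem_range] at hi₀
  refine ⟨- g i₀, fun i => ?_⟩
  have h1 : g (i % (2 * n)) = g i :=
    Function.Periodic.map_mod_nat (f := g) (a := 2 * n) hper i
  have hlt : i % (2 * n) < 2 * n := Nat.mod_lt _ (by omega)
  have h2 := hmin (i % (2 * n)) (Finset.mem_range.2 hlt)
  have h3 := hW (i % (2 * n)) i₀ hlt hi₀
  rw [h1] at h2 h3
  omega

/-- the translated loop stays in its bounding box: there is an offset such that all the sites have
coordinates in `[0, wid] × [0, hgt]` -/
theorem exists_offset {n : ℕ} (hn : 1 ≤ n) {f : ℕ → ℤ × ℤ} (hf : f ∈ LoopsW n) :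
    ∃ o : ℤ × ℤ, ∀ i, 0 ≤ (f i + o).1 ∧ (f i + o).1 ≤ wid n f ∧
      0 ≤ (f i + o).2 ∧ (f i + o).2 ≤ hgt n f := by
  have hper := hf.2.1
  obtain ⟨a, ha⟩ := lsw_offset hn (g := fun i => (f i).1) (fun i => by simp only [hper i])
    (W := wid n f) (fun i j hi hj => by
      exact Finset.le_sup (s := (Finset.range (2 * n)) ×ˢ (Finset.range (2 * n)))
        (f := fun p : ℕ × ℕ => ((f p.1).1 - (f p.2).1).natAbs) (b := (i, j))
        (Finset.mem_product.2 ⟨Finset.mem_range.2 hi, Finset.mem_range.2 hj⟩))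
  obtain ⟨b, hb⟩ := lsw_offset hn (g := fun i => (f i).2) (fun i => by simp only [hper i])
    (W := hgt n f) (fun i j hi hj => by
      exact Finset.le_sup (s := (Finset.range (2 * n)) ×ˢ (Finset.range (2 * n)))
        (f := fun p : ℕ × ℕ => ((f p.1).2 - (f p.2).2).natAbs) (b := (i, j))
        (Finset.mem_product.2 ⟨Finset.mem_range.2 hi, Finset.mem_range.2 hj⟩))
  refine ⟨(a, b), fun i => ?_⟩
  have h1 := ha i
  have h2 := hb i
  simp only [Prod.fst_add, Prod.snd_add]
  exact ⟨h1.1, h1.2, h2.1, h2.2⟩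

end Pool.Agent.Lib.MP_c23e5f_co.W
end

section

/-!
# MP_c23e5f_co: the bound for one row

The certificate: 18 vectors `cN k / 2200` (indexed by `k : Fin 18`, components indexed by the state) and
a transition `nx k t` (reading the types from the right to the left) such that one step of the transfer
matrix maps the vector `k` below `lam * wty t` times the vector `nx k t`.
-/

set_option autoImplicit false

namespace Pool.Agent.Lib.MP_c23e5f_co.W

def cN : Fin 18 → Fin 3 → ℕ :=
  ![![2200, 2440, 1400],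
    ![2193, 2015, 1794],
    ![2325, 2179, 2179],
    ![3100, 0, 0],
    ![2469, 1944, 1711],
    ![2244, 2303, 2303],
    ![1437, 3071, 3071],
    ![2491, 1893, 1645],
    ![2185, 2446, 2446],
    ![2426, 1969, 1744],
    ![2272, 2223, 2223],
    ![2496, 1879, 1628],
    ![2168, 2468, 2468],
    ![2407, 2012, 1793],
    ![2433, 1944, 1715],
    ![2162, 2473, 2473],
    ![2397, 2015, 1798],
    ![2192, 2384, 2384]]

def nx : Fin 18 → Fin 3 → Fin 18 :=
  ![![1, 2, 3],
    ![2, 2, 3],
    ![4, 5, 3],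
    ![0, 6, 0],
    ![7, 8, 3],
    ![9, 10, 3],
    ![2, 2, 3],
    ![11, 12, 3],
    ![13, 2, 3],
    ![4, 8, 3],
    ![14, 5, 3],
    ![11, 15, 3],
    ![16, 2, 3],
    ![4, 17, 3],
    ![4, 8, 3],
    ![16, 2, 3],
    ![4, 17, 3],
    ![13, 2, 3]]

lemma cert00 : ∀ k, k ≠ 3 → 25000 * cN k 0 + 6318 * cN k 2 ≤ 29125 * cN (nx k 0) 0 := by decide
lemma cert01 : ∀ k, k ≠ 3 → 468 * cN k 0 + 540 * cN k 1 ≤ 1165 * cN (nx k 0) 1 := by decide
lemma cert02 : ∀ k, k ≠ 3 → 351 * cN k 0 + 540 * cN k 1 ≤ 1165 * cN (nx k 0) 2 := by decide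
lemma cert10 : ∀ k, 1404 * cN k 0 + 1620 * cN k 1 ≤ 3029 * cN (nx k 1) 0 := by decide
lemma cert11 : ∀ k, 3000 * cN k 0 ≤ 3029 * cN (nx k 1) 1 := by decide
lemma cert12 : ∀ k, 3000 * cN k 0 ≤ 3029 * cN (nx k 1) 2 := by decide
lemma cert20 : ∀ k, k ≠ 3 → 1872 * cN k 0 + 2160 * cN k 1 ≤ 3029 * cN (nx k 2) 0 := by decide
lemma cert3 : ∀ k t, k ≠ 3 ∨ t = 1 → (nx k t = 3 ↔ t = 2) := by decide
lemma certmax : ∀ k, cN k 0 ≤ 3100 := by decide

/-- the index of a list of types -/
def idx : List (Fin 3) → Fin 18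
  | [] => 0
  | t :: τ => nx (idx τ) t

lemma idx_eq {τ : List (Fin 3)} (h : Valid τ) : idx τ = 3 ↔ τ.head? = some 2 := by
  induction τ with
  | nil => simp [idx]
  | cons t τ ih =>
    have ih := ih h.1
    have h2 := h.2
    simp only [idx, List.head?_cons, Option.some.injEq]
    apply cert3
    by_cases h3 : idx τ = 3
    · exact Or.inr (h2 (ih.1 h3))
    · exact Or.inl h3

/-- the weight of a letter, given the state, the type, and a function of the next state -/
noncomputable def stepSum (s t : Fin 3) (g : Fin 3 → ℝ) : ℝ :=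
  ∑ c : Bool × Bool, match tr s t c with
    | none => 0
    | some p => fx ^ cost c * wty p.2 * g p.1

lemma stepSum_le (k : Fin 18) (t : Fin 3) (h : k = 3 → t = 1) (s : Fin 3) :
    stepSum s t (fun s' => (cN k s' : ℝ)) ≤ lam * wty t * cN (nx k t) s := by
  have key : ∀ m n : ℕ, m ≤ n → (m : ℝ) ≤ n := fun m n h => by exact_mod_cast h
  have c00 := fun hk : k ≠ 3 => key _ _ (cert00 k hk)
  have c01 := fun hk : k ≠ 3 => key _ _ (cert01 k hk)
  have c02 := fun hk : k ≠ 3 => key _ _ (cert02 k hk)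
  have c10 := key _ _ (cert10 k)
  have c11 := key _ _ (cert11 k)
  have c12 := key _ _ (cert12 k)
  have c20 := fun hk : k ≠ 3 => key _ _ (cert20 k hk)
  push_cast at c00 c01 c02 c10 c11 c12 c20
  have e0 : (0 : ℝ) ≤ cN (nx k t) s := Nat.cast_nonneg _
  unfold stepSum
  rw [Fintype.sum_prod_type]
  simp only [Fintype.sum_bool]
  fin_cases t
  · have hk : k ≠ 3 := fun h' => by simpa using h h'
    have c00 := c00 hk
    have c01 := c01 hk
    have c02 := c02 hk
    fin_cases s <;> simp [tr, cost, wty, fx, lam] at * <;> linarith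
  · fin_cases s <;> simp [tr, cost, wty, fx, lam] at * <;> linarith
  · have hk : k ≠ 3 := fun h' => by simpa using h h'
    have c20 := c20 hk
    fin_cases s <;> simp [tr, cost, wty, fx, lam] at * <;> linarith

lemma sum_rowsOf_succ (w : ℕ) (F : List (Bool × Bool) → ℝ) :
    ∑ D ∈ rowsOf (w + 1), F D = ∑ c : Bool × Bool, ∑ D ∈ rowsOf w, F (c :: D) := by
  rw [rowsOf, Finset.sum_image, Finset.sum_product]
  rintro ⟨a, b⟩ _ ⟨c, d⟩ _ h
  simp only [List.cons.injEq] at h
  rw [h.1, h.2]

/-- the weight of the rows -/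
noncomputable def rowW (s : Fin 3) (τ : List (Fin 3)) (D : List (Bool × Bool)) : ℝ :=
  match run s τ D with
  | none => 0
  | some τ' => fx ^ rowCost D * wts τ'

lemma rowW_cons (s t : Fin 3) (τ : List (Fin 3)) (c : Bool × Bool) (D : List (Bool × Bool)) :
    rowW s (t :: τ) (c :: D) = match tr s t c with
      | none => 0
      | some p => fx ^ cost c * wty p.2 * rowW p.1 τ D := by
  unfold rowW
  rw [run]
  rcases h : tr s t c with _ | p
  · simp
  · simp only [Option.bind_some]
    rcases h2 : run p.1 τ D with _ | τ'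
    · simp
    · simp only [Option.map_some, rowCost, List.map_cons, List.sum_cons, wts, List.prod_cons,
        pow_add]
      ring

lemma wty_pos (t : Fin 3) : 0 < wty t := by
  fin_cases t <;> simp [wty]

lemma wts_pos (τ : List (Fin 3)) : 0 < wts τ := by
  unfold wts
  apply List.prod_pos
  intro a ha
  obtain ⟨t, -, rfl⟩ := List.mem_map.1 ha
  exact wty_pos t

lemma row_bound_aux (τ : List (Fin 3)) (hτ : Valid τ) (s : Fin 3) :
    ∑ D ∈ rowsOf τ.length, rowW s τ D ≤ lam ^ τ.length * wts τ * (cN (idx τ) s / 2200) := by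
  induction τ generalizing s with
  | nil =>
    simp only [List.length_nil, rowsOf, Finset.sum_singleton, rowW, run, idx, wts, List.map_nil,
      List.prod_nil, pow_zero, rowCost, List.sum_nil, mul_one, one_mul]
    fin_cases s <;> simp [cN]
    · norm_num
    · norm_num
  | cons t τ ih =>
    have ih := ih hτ.1
    have hstep := stepSum_le (idx τ) t (fun h => hτ.2 ((idx_eq hτ.1).1 h)) s
    rw [List.length_cons, sum_rowsOf_succ]
    have hpos : 0 < lam ^ τ.length * wts τ := mul_pos (pow_pos (by norm_num [lam]) _) (wts_pos τ)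
    have h1 : ∑ c : Bool × Bool, ∑ D ∈ rowsOf τ.length, rowW s (t :: τ) (c :: D)
        ≤ ∑ c : Bool × Bool, (match tr s t c with
          | none => 0
          | some p => fx ^ cost c * wty p.2 * (cN (idx τ) p.1 : ℝ)) *
            (lam ^ τ.length * wts τ / 2200) := by
      apply Finset.sum_le_sum
      intro c _
      simp only [rowW_cons]
      rcases h : tr s t c with _ | p
      · simp
      · simp only
        rw [← Finset.mul_sum]
        have h3 : 0 ≤ fx ^ cost c * wty p.2 :=
          mul_nonneg (pow_nonneg (by norm_num [fx]) _) (wty_pos _).le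
        calc fx ^ cost c * wty p.2 * ∑ D ∈ rowsOf τ.length, rowW p.1 τ D
            ≤ fx ^ cost c * wty p.2 * (lam ^ τ.length * wts τ * (cN (idx τ) p.1 / 2200)) :=
              mul_le_mul_of_nonneg_left (ih p.1) h3
          _ = _ := by ring
    refine h1.trans ?_
    rw [← Finset.sum_mul]
    calc stepSum s t (fun s' => (cN (idx τ) s' : ℝ)) * (lam ^ τ.length * wts τ / 2200)
        ≤ (lam * wty t * cN (nx (idx τ) t) s) * (lam ^ τ.length * wts τ / 2200) :=
          mul_le_mul_of_nonneg_right hstep (by positivity)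
      _ = _ := by
        rw [idx, wts, wts, List.map_cons, List.prod_cons, pow_succ]
        ring

/-- the bound for one row -/
theorem row_bound (τ : List (Fin 3)) (hτ : Valid τ) :
    ∑ D ∈ rowsOf τ.length, rowW 0 τ D ≤ (3 / 2) * lam ^ τ.length * wts τ := by
  refine (row_bound_aux τ hτ 0).trans ?_
  have h1 : (cN (idx τ) 0 : ℝ) ≤ 3100 := by exact_mod_cast certmax (idx τ)
  have hpos : 0 < lam ^ τ.length * wts τ := mul_pos (pow_pos (by norm_num [lam]) _) (wts_pos τ)
  calc lam ^ τ.length * wts τ * (cN (idx τ) 0 / 2200)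
      ≤ lam ^ τ.length * wts τ * (3 / 2) := by
        apply mul_le_mul_of_nonneg_left _ hpos.le
        rw [div_le_iff₀ (by norm_num)]
        linarith
    _ = _ := by ring

end Pool.Agent.Lib.MP_c23e5f_co.W
end

section

/-!
# MP_c23e5f_co: the number of edges of the array of a loop

`totCost (arr f w h) = ∑ j < h, ∑ i < w, ((vE f i j).toNat + (hE f i j).toNat)` is the number of
triples `(i, j, b)` with `i < w`, `j < h`, `b : Bool`, such that `vE f i j` (if `b`) or `hE f i j`
(if not `b`) holds.  Choose for each such triple a time `k` such that `{f k, f (k+1)}` is the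
corresponding edge; by periodicity `k < N` can be taken (`f (k % N) = f k`,
`f (k % N + 1) = f (k + 1)`).  The time determines the pair of sites, hence the triple, so the number of
triples is at most `N`.
-/

set_option autoImplicit false

namespace Pool.Agent.Lib.MP_c23e5f_co.W

private lemma co_sum_range (g : ℕ → ℕ) (n : ℕ) :
    ((List.range n).map g).sum = ∑ i ∈ Finset.range n, g i := by
  induction n with
  | zero => simp
  | succ n ih => rw [List.range_succ, List.map_append, List.sum_append, ih,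
      Finset.sum_range_succ]; simp

private lemma co_totCost (f : ℕ → ℤ × ℤ) (w h : ℕ) :
    totCost (arr f w h) = ∑ j ∈ Finset.range h, ∑ i ∈ Finset.range w,
      ((vE f i j).toNat + (hE f i j).toNat) := by
  unfold totCost arr
  rw [List.map_map, co_sum_range]
  refine Finset.sum_congr rfl fun j _ => ?_
  simp only [Function.comp_apply, rowCost, rowArr]
  rw [bind_pure_comp, List.map_eq_map, List.map_map, List.map_map, co_sum_range]
  rfl

/-- the triple of a time -/
private def co_T (f : ℕ → ℤ × ℤ) (k : ℕ) : (ℤ × ℤ) × Bool :=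
  ((min (f k).2 (f (k + 1)).2, min (f k).1 (f (k + 1)).1), decide ((f k).1 = (f (k + 1)).1))

private lemma co_mod {N : ℕ} {f : ℕ → ℤ × ℤ} (hf : IsLoop N f) (t : ℕ) : f (t % N) = f t :=
  Function.Periodic.map_mod_nat (f := f) (a := N) hf.per t

private lemma co_mod' {N : ℕ} {f : ℕ → ℤ × ℤ} (hf : IsLoop N f) (t : ℕ) :
    f (t % N + 1) = f (t + 1) := by
  rw [← co_mod hf (t % N + 1), ← co_mod hf (t + 1), Nat.mod_add_mod]

private lemma co_edge {N : ℕ} {f : ℕ → ℤ × ℤ} (hN : 1 ≤ N) (hf : IsLoop N f) {p q : ℤ × ℤ}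
    (h : Edge f p q) : ∃ i < N, (f i = p ∧ f (i + 1) = q) ∨ (f i = q ∧ f (i + 1) = p) := by
  obtain ⟨i, hi⟩ := h
  refine ⟨i % N, Nat.mod_lt _ hN, ?_⟩
  rw [co_mod hf, co_mod' hf]
  exact hi

theorem totCost_arr {N : ℕ} (hN : 1 ≤ N) {f : ℕ → ℤ × ℤ} (hf : IsLoop N f) (w h : ℕ) :
    totCost (arr f w h) ≤ N := by
  classical
  rw [co_totCost]
  set S : Finset ((ℕ × ℕ) × Bool) :=
    ((Finset.range h ×ˢ Finset.range w) ×ˢ (Finset.univ : Finset Bool)).filter
      (fun t => (if t.2 then vE f t.1.2 t.1.1 else hE f t.1.2 t.1.1) = true) with hS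
  have hcard : ∑ j ∈ Finset.range h, ∑ i ∈ Finset.range w,
      ((vE f i j).toNat + (hE f i j).toNat) = S.card := by
    rw [hS, Finset.card_filter, Finset.sum_product, Finset.sum_product]
    refine Finset.sum_congr rfl fun j _ => Finset.sum_congr rfl fun i _ => ?_
    rw [Fintype.sum_bool]
    cases vE f i j <;> cases hE f i j <;> simp
  rw [hcard]
  have himg : S.image (fun t => (((t.1.1 : ℤ), (t.1.2 : ℤ)), t.2)) ⊆
      (Finset.range N).image (co_T f) := by
    intro x hx
    rw [Finset.mem_image] at hx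
    obtain ⟨⟨⟨j, i⟩, b⟩, ht, rfl⟩ := hx
    rw [hS, Finset.mem_filter] at ht
    have h2 := ht.2
    rw [Finset.mem_image]
    cases b with
    | true =>
      simp only [if_true, vE, decide_eq_true_eq] at h2
      obtain ⟨k, hk, h3⟩ := co_edge hN hf h2
      refine ⟨k, Finset.mem_range.2 hk, ?_⟩
      rcases h3 with ⟨h4, h5⟩ | ⟨h4, h5⟩ <;> simp [co_T, h4, h5]
    | false =>
      simp only [Bool.false_eq_true, if_false, hE, decide_eq_true_eq] at h2
      obtain ⟨k, hk, h3⟩ := co_edge hN hf h2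
      refine ⟨k, Finset.mem_range.2 hk, ?_⟩
      rcases h3 with ⟨h4, h5⟩ | ⟨h4, h5⟩ <;> simp [co_T, h4, h5]
  have hinj : (S.image (fun t => (((t.1.1 : ℤ), (t.1.2 : ℤ)), t.2))).card = S.card := by
    apply Finset.card_image_of_injective
    rintro ⟨⟨a, b⟩, c⟩ ⟨⟨a', b'⟩, c'⟩ hh
    simpa using hh
  rw [← hinj]
  refine (Finset.card_le_card himg).trans (Finset.card_image_le.trans ?_)
  rw [Finset.card_range]

end Pool.Agent.Lib.MP_c23e5f_co.W
end
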