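import Pool.Agent.Lib.MP_c23e5f_co.W.Cost
import Pool.Agent.Lib.MP_c23e5f_co.LoopLower

section

/-!
# MP_c23e5f_co: the array of a loop is accepted by the automaton

Proof.  Rows: by induction on the number of remaining columns,
`run (stE f i j) [tyE f i j, ..., tyE f (w-1) j] [(vE f i j, hE f i j), ..., ]
   = some [tyE f i (j+1), ..., tyE f (w-1) (j+1)]`
using `tr_edge`; at the end the state is `stE f w j = 0` as there is no edge from `(w-1, j)` to `(w, j)`.
Then `runs [tyE f 0 j, ..., tyE f (w-1) j] (rows j, ..., h-1) = true` by induction on the number of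
remaining rows; at the end all the types `tyE f i h` are `0` as there is no edge from `(i, h-1)` to
`(i, h)`.  At the beginning `tyE f i 0 = 0` and `stE f 0 j = 0`: there are no edges from outside of the
box.
-/

set_option autoImplicit false

namespace Pool.Agent.Lib.MP_c23e5f_co.W

/-- the path stays in the box of `w` columns and `h` rows -/
def InBox (f : ℕ → ℤ × ℤ) (w h : ℕ) : Prop :=
  ∀ i, 0 ≤ (f i).1 ∧ (f i).1 < w ∧ 0 ≤ (f i).2 ∧ (f i).2 < h

private theorem enc_flat : ∀ l : List ℕ,
    (l.flatMap fun (a : ℕ) => [(a : ℤ)]) = l.map fun (a : ℕ) => (a : ℤ) := by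
  intro l
  induction l with
  | nil => rfl
  | cons a l ih => rw [List.flatMap_cons, ih, List.map_cons]; rfl

private theorem enc_rowArr (f : ℕ → ℤ × ℤ) (w j : ℕ) :
    rowArr f w j = (List.range' 0 w).map
      fun (k : ℕ) => (vE f (k : ℤ) (j : ℤ), hE f (k : ℤ) (j : ℤ)) := by
  unfold rowArr
  simp [List.range_eq_range', enc_flat, Function.comp_def]

private theorem enc_edge {f : ℕ → ℤ × ℤ} {p q : ℤ × ℤ} (h : Edge f p q) :
    (∃ i, f i = p) ∧ (∃ i, f i = q) := by
  obtain ⟨i, ⟨h1, h2⟩ | ⟨h1, h2⟩⟩ := h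
  · exact ⟨⟨i, h1⟩, ⟨i + 1, h2⟩⟩
  · exact ⟨⟨i + 1, h2⟩, ⟨i, h1⟩⟩

private theorem enc_hE_right {f : ℕ → ℤ × ℤ} {w h : ℕ} (hbox : InBox f w h) (j : ℤ) :
    hE f ((w : ℤ) - 1) j = false := by
  rw [hE, decide_eq_false_iff_not]
  intro he
  obtain ⟨i, hi⟩ := (enc_edge he).2
  have := (hbox i).2.1
  rw [hi] at this
  simp at this

private theorem enc_hE_left {f : ℕ → ℤ × ℤ} {w h : ℕ} (hbox : InBox f w h) (j : ℤ) :
    hE f (-1 : ℤ) j = false := by
  rw [hE, decide_eq_false_iff_not]
  intro he
  obtain ⟨i, hi⟩ := (enc_edge he).1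
  have := (hbox i).1
  rw [hi] at this
  simp at this

private theorem enc_vE_top {f : ℕ → ℤ × ℤ} {w h : ℕ} (hbox : InBox f w h) (i : ℤ) :
    vE f i ((h : ℤ) - 1) = false := by
  rw [vE, decide_eq_false_iff_not]
  intro he
  obtain ⟨k, hk⟩ := (enc_edge he).2
  have := (hbox k).2.2.2
  rw [hk] at this
  simp at this

private theorem enc_vE_bot {f : ℕ → ℤ × ℤ} {w h : ℕ} (hbox : InBox f w h) (i : ℤ) :
    vE f i (-1 : ℤ) = false := by
  rw [vE, decide_eq_false_iff_not]
  intro he
  obtain ⟨k, hk⟩ := (enc_edge he).1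
  have := (hbox k).2.2.1
  rw [hk] at this
  simp at this

private theorem enc_row {N : ℕ} (hN : 5 ≤ N) {f : ℕ → ℤ × ℤ} (hf : IsLoop N f) {w h : ℕ}
    (hbox : InBox f w h) (j : ℤ) (m : ℕ) : ∀ i : ℕ, i + m = w →
    run (stE f i j) ((List.range' i m).map fun (k : ℕ) => tyE f (k : ℤ) j)
      ((List.range' i m).map fun (k : ℕ) => (vE f (k : ℤ) j, hE f (k : ℤ) j)) =
    some ((List.range' i m).map fun (k : ℕ) => tyE f (k : ℤ) (j + 1)) := by
  induction m with
  | zero =>
    intro i hi
    have hi' : i = w := by omega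
    subst hi'
    have hs : stE f (i : ℤ) j = 0 := by
      rw [stE, enc_hE_right hbox]
      simp
    rw [hs]
    simp [run]
  | succ m ih =>
    intro i hi
    rw [List.range'_succ, List.map_cons, List.map_cons, List.map_cons, run, tr_edge hN hf]
    have := ih (i + 1) (by omega)
    push_cast at this
    simp only [Option.bind_some]
    rw [this]
    rfl

private theorem enc_runs {N : ℕ} (hN : 5 ≤ N) {f : ℕ → ℤ × ℤ} (hf : IsLoop N f) {w h : ℕ}
    (hbox : InBox f w h) (m : ℕ) : ∀ j : ℕ, j + m = h →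
    runs ((List.range w).map fun (k : ℕ) => tyE f (k : ℤ) (j : ℤ))
      ((List.range' j m).map fun (l : ℕ) => rowArr f w l) = true := by
  induction m with
  | zero =>
    intro j hj
    have hj' : j = h := by omega
    subst hj'
    simp only [List.range'_zero, List.map_nil, runs, List.all_map, List.all_eq_true,
      Function.comp_apply, beq_iff_eq]
    intro x _
    rw [tyE, enc_vE_top hbox]
    simp
  | succ m ih =>
    intro j hj
    rw [List.range'_succ, List.map_cons, runs]
    have hrow : run 0 ((List.range w).map fun (k : ℕ) => tyE f (k : ℤ) (j : ℤ)) (rowArr f w j) =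
        some ((List.range w).map fun (k : ℕ) => tyE f (k : ℤ) ((j : ℤ) + 1)) := by
      have h0 : stE f ((0 : ℕ) : ℤ) (j : ℤ) = 0 := by
        have h1 : ((0 : ℕ) : ℤ) - 1 = -1 := by norm_num
        rw [stE, h1, enc_hE_left hbox]
        simp
      have := enc_row hN hf hbox (j : ℤ) w 0 (by omega)
      rw [h0] at this
      rw [enc_rowArr, List.range_eq_range']
      exact this
    rw [hrow]
    have := ih (j + 1) (by omega)
    push_cast at this
    exact this

theorem runs_arr {N : ℕ} (hN : 5 ≤ N) {f : ℕ → ℤ × ℤ} (hf : IsLoop N f) {w h : ℕ}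
    (hbox : InBox f w h) : runs (List.replicate w 0) (arr f w h) = true := by
  have h1 : List.replicate w (0 : Fin 3) =
      (List.range w).map fun (k : ℕ) => tyE f (k : ℤ) ((0 : ℕ) : ℤ) := by
    symm
    rw [List.eq_replicate_iff]
    refine ⟨by simp, ?_⟩
    intro b hb
    rw [List.mem_map] at hb
    obtain ⟨a, _, rfl⟩ := hb
    have h1 : ((0 : ℕ) : ℤ) - 1 = -1 := by norm_num
    rw [tyE, h1, enc_vE_bot hbox]
    simp
  have := enc_runs hN hf hbox h 0 (by omega)
  rw [h1, arr, List.range_eq_range' (n := h)]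
  exact this

private theorem enc_mem_rows : ∀ L : List (Bool × Bool), L ∈ rowsOf L.length := by
  intro L
  induction L with
  | nil => simp [rowsOf]
  | cons c L ih =>
    rw [List.length_cons, rowsOf, Finset.mem_image]
    exact ⟨(c, L), by simp [ih], rfl⟩

private theorem enc_mem_arrs {w : ℕ} : ∀ A : List (List (Bool × Bool)),
    (∀ D ∈ A, D ∈ rowsOf w) → A ∈ arrs w A.length := by
  intro A
  induction A with
  | nil => intro _; simp [arrs]
  | cons D A ih =>
    intro hA
    rw [List.length_cons, arrs, Finset.mem_image]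
    refine ⟨(D, A), ?_, rfl⟩
    rw [Finset.mem_product]
    exact ⟨hA D (by simp), ih fun E hE => hA E (by simp [hE])⟩

theorem arr_mem (f : ℕ → ℤ × ℤ) (w h : ℕ) : arr f w h ∈ arrs w h := by
  have h1 : (arr f w h).length = h := by simp [arr]
  have h2 := enc_mem_arrs (w := w) (arr f w h) (by
    intro D hD
    rw [arr, List.mem_map] at hD
    obtain ⟨j, _, rfl⟩ := hD
    have h3 : (rowArr f w j).length = w := by simp [rowArr]
    have h4 := enc_mem_rows (rowArr f w j)
    rwa [h3] at h4)
  rwa [h1] at h2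

end Pool.Agent.Lib.MP_c23e5f_co.W
end

section

/-!
# MP_c23e5f_co: the bound for all the rows
-/

set_option autoImplicit false

namespace Pool.Agent.Lib.MP_c23e5f_co.W

lemma tr_two : ∀ (s t : Fin 3) (c : Bool × Bool) (p : Fin 3 × Fin 3), tr s t c = some p →
    (p.1 = 2 → p.2 = 1) ∧ (p.2 = 2 → s = 2) := by decide

lemma run_valid (s : Fin 3) (τ : List (Fin 3)) (D : List (Bool × Bool)) (τ' : List (Fin 3))
    (h : run s τ D = some τ') :
    Valid τ' ∧ τ'.length = τ.length ∧ (τ'.head? = some 2 → s = 2) := by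
  induction τ generalizing s D τ' with
  | nil =>
    rcases D with _ | ⟨c, D⟩
    · rw [run] at h
      split_ifs at h with hs
      simp only [Option.some.injEq] at h
      subst h
      simp [Valid]
    · simp [run] at h
  | cons t τ ih =>
    rcases D with _ | ⟨c, D⟩
    · simp [run] at h
    · rw [run] at h
      rcases h1 : tr s t c with _ | p
      · simp [h1] at h
      · rw [h1, Option.bind_some] at h
        rcases h2 : run p.1 τ D with _ | τ''
        · simp [h2] at h
        · rw [h2, Option.map_some, Option.some.injEq] at h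
          subst h
          obtain ⟨i1, i2, i3⟩ := ih _ _ _ h2
          obtain ⟨j1, j2⟩ := tr_two _ _ _ _ h1
          refine ⟨⟨i1, fun h => j1 (i3 h)⟩, by simp [i2], fun h => j2 ?_⟩
          simpa using h

lemma sum_arrs_succ (w h : ℕ) (F : List (List (Bool × Bool)) → ℝ) :
    ∑ A ∈ arrs w (h + 1), F A = ∑ D ∈ rowsOf w, ∑ A ∈ arrs w h, F (D :: A) := by
  rw [arrs, Finset.sum_image, Finset.sum_product]
  rintro ⟨a, b⟩ _ ⟨c, d⟩ _ h
  simp only [List.cons.injEq] at h
  rw [h.1, h.2]

lemma arrs_bound_aux (w h : ℕ) (τ : List (Fin 3)) (hτ : Valid τ) (hw : τ.length = w) :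
    ∑ A ∈ arrs w h, (if runs τ A then fx ^ totCost A else 0) ≤
      ((3 / 2) * lam ^ w) ^ h * wts τ := by
  induction h generalizing τ with
  | zero =>
    simp only [arrs, Finset.sum_singleton, runs, totCost, List.map_nil, List.sum_nil, pow_zero,
      one_mul]
    split_ifs with h
    · have : wts τ = 1 := by
        unfold wts
        apply List.prod_eq_one
        intro a ha
        obtain ⟨t, ht, rfl⟩ := List.mem_map.1 ha
        have := List.all_eq_true.1 h t ht
        have : t = 0 := by simpa using this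
        rw [this]
        rfl
      rw [this]
    · exact (wts_pos τ).le
  | succ h ih =>
    rw [sum_arrs_succ]
    have hC : (0 : ℝ) ≤ ((3 / 2) * lam ^ w) ^ h := by
      have : (0 : ℝ) ≤ lam := by norm_num [lam]
      positivity
    have h1 : ∀ D ∈ rowsOf w, ∑ A ∈ arrs w h, (if runs τ (D :: A) then fx ^ totCost (D :: A) else 0)
        ≤ ((3 / 2) * lam ^ w) ^ h * rowW 0 τ D := by
      intro D _
      unfold rowW
      rcases h2 : run 0 τ D with _ | τ'
      · simp [runs, h2]
      · obtain ⟨v1, v2, -⟩ := run_valid _ _ _ _ h2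
        have h3 := ih τ' v1 (v2.trans hw)
        simp only
        calc ∑ A ∈ arrs w h, (if runs τ (D :: A) then fx ^ totCost (D :: A) else 0)
            = fx ^ rowCost D * ∑ A ∈ arrs w h, (if runs τ' A then fx ^ totCost A else 0) := by
              rw [Finset.mul_sum]
              apply Finset.sum_congr rfl
              intro A _
              simp only [runs, h2, totCost, List.map_cons, List.sum_cons, pow_add, mul_ite, mul_zero]
          _ ≤ fx ^ rowCost D * (((3 / 2) * lam ^ w) ^ h * wts τ') :=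
              mul_le_mul_of_nonneg_left h3 (pow_nonneg (by norm_num [fx]) _)
          _ = _ := by ring
    refine (Finset.sum_le_sum h1).trans ?_
    rw [← Finset.mul_sum]
    have h4 := row_bound τ hτ
    rw [hw] at h4
    calc ((3 / 2) * lam ^ w) ^ h * ∑ D ∈ rowsOf w, rowW 0 τ D
        ≤ ((3 / 2) * lam ^ w) ^ h * ((3 / 2) * lam ^ w * wts τ) :=
          mul_le_mul_of_nonneg_left h4 hC
      _ = _ := by rw [pow_succ]; ring

lemma valid_replicate (w : ℕ) : Valid (List.replicate w 0) := by
  induction w with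
  | zero => trivial
  | succ w ih =>
    rw [List.replicate_succ]
    refine ⟨ih, fun h => ?_⟩
    rcases w with _ | w
    · simp at h
    · simp [List.replicate_succ] at h

/-- the weight of all the arrays -/
theorem arrs_bound (w h : ℕ) :
    ∑ A ∈ arrs w h, (if runs (List.replicate w 0) A then fx ^ totCost A else 0) ≤
      (3 / 2) ^ h * lam ^ (w * h) := by
  refine (arrs_bound_aux w h _ (valid_replicate w) (by simp)).trans (le_of_eq ?_)
  have : wts (List.replicate w 0) = 1 := by
    unfold wts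
    apply List.prod_eq_one
    intro a ha
    obtain ⟨t, ht, rfl⟩ := List.mem_map.1 ha
    rw [List.eq_of_mem_replicate ht]
    rfl
  rw [this, mul_one, mul_pow, ← pow_mul]

end Pool.Agent.Lib.MP_c23e5f_co.W
end

section

/-!
# MP_c23e5f_co: the irreducible bridges of length at most 12

`codes` is the list of the 1065 irreducible bridges of length at most 12, as numbers: the digits in
basis 4, starting from the last one, are the steps (0: right, 1: left, 2: up, 3: down), and the leading
digit 1 is a mark of the end.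
-/

set_option autoImplicit false

namespace Pool.Agent.Lib.MP_c23e5f_co.W

open scoped ENNReal

/-- the codes -/
def codes : List ℕ :=
  [4, 24, 28, 104, 124, 424, 508, 1704, 2044, 4704, 4976, 6824, 8188, 18824, 18848, 19040, 19916,
   19952, 20336, 25184, 27304, 29552, 32764, 75304, 75400, 75404, 75424, 76168, 76192, 76384,
   79676, 79816, 79820, 79856, 81356, 81392, 81776, 100744, 100768, 100960, 102256, 107104,
   109224, 117344, 118220, 118256, 118640, 127856, 131068, 271744, 275904, 301224, 301608, 301704,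
   301708, 301728, 304680, 304776, 304780, 304800, 305544, 305568, 305760, 318716, 319292, 319432,
   319436, 319472, 325436, 325576, 325580, 325616, 327116, 327152, 327536, 402984, 403080, 403084,
   403104, 403848, 403872, 404064, 409036, 409072, 409456, 428424, 428448, 428640, 434784, 436904,
   469384, 469408, 469600, 472892, 473032, 473036, 473072, 474572, 474608, 474992, 511436, 511472,
   511856, 521072, 524284, 1086984, 1087008, 1087104, 1087872, 1090944, 1103628, 1103664, 1103808,
   1105344, 1111488, 1189248, 1204832, 1204904, 1206440, 1206824, 1206844, 1206920, 1206924,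
   1206944, 1218728, 1219112, 1219208, 1219212, 1219232, 1222184, 1222280, 1222284, 1222304,
   1223048, 1223072, 1223264, 1258944, 1274736, 1274876, 1277180, 1277736, 1277756, 1277896,
   1277900, 1277936, 1301756, 1302332, 1302472, 1302476, 1302512, 1308476, 1308616, 1308620,
   1308656, 1310156, 1310192, 1310576, 1582464, 1611944, 1612328, 1612424, 1612428, 1612448,
   1615400, 1615496, 1615500, 1615520, 1616264, 1616288, 1616480, 1636156, 1636296, 1636300,
   1636336, 1637836, 1637872, 1638256, 1713704, 1713800, 1713804, 1713824, 1714568, 1714592,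
   1714784, 1720176, 1739144, 1739168, 1739360, 1745504, 1747624, 1848768, 1877544, 1877640,
   1877644, 1877664, 1878408, 1878432, 1878624, 1891580, 1892156, 1892296, 1892300, 1892336,
   1898300, 1898440, 1898444, 1898480, 1899980, 1900016, 1900400, 2042464, 2045756, 2045896,
   2045900, 2045936, 2047436, 2047472, 2047856, 2084300, 2084336, 2084720, 2093936, 2097148,
   4347944, 4348040, 4348044, 4348064, 4348424, 4348428, 4348448, 4348464, 4348544, 4351496,
   4351500, 4351520, 4351616, 4352384, 4363784, 4363808, 4363904, 4364672, 4367744, 4414524,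
   4414664, 4414668, 4414704, 4415240, 4415244, 4415264, 4415280, 4415424, 4421384, 4421388,
   4421424, 4421568, 4423104, 4445964, 4446000, 4446144, 4447680, 4453824, 4757000, 4757024,
   4757120, 4757888, 4760960, 4781504, 4817504, 4819336, 4819360, 4819552, 4819624, 4825696,
   4825768, 4827304, 4827688, 4827708, 4827784, 4827788, 4827808, 4859264, 4874848, 4874920,
   4876456, 4876840, 4876860, 4876936, 4876940, 4876960, 4888744, 4889128, 4889224, 4889228,
   4889248, 4892200, 4892296, 4892300, 4892320, 4893064, 4893088, 4893280, 5023104, 5035788,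
   5035824, 5035968, 5037504, 5043648, 5096304, 5098956, 5098992, 5099376, 5099516, 5108592,
   5108732, 5111036, 5111592, 5111612, 5111752, 5111756, 5111792, 5191104, 5206896, 5207036,
   5209340, 5209896, 5209916, 5210056, 5210060, 5210096, 5233916, 5234492, 5234632, 5234636,
   5234672, 5240636, 5240776, 5240780, 5240816, 5242316, 5242352, 5242736, 6329864, 6329888,
   6329984, 6330752, 6333824, 6348224, 6354368, 6432128, 6447712, 6447784, 6449320, 6449704,
   6449724, 6449800, 6449804, 6449824, 6461608, 6461992, 6462088, 6462092, 6462112, 6465064,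
   6465160, 6465164, 6465184, 6465928, 6465952, 6466144, 6501824, 6544636, 6545212, 6545352,
   6545356, 6545392, 6551356, 6551496, 6551500, 6551536, 6553036, 6553072, 6553456, 6825344,
   6854824, 6855208, 6855304, 6855308, 6855328, 6858280, 6858376, 6858380, 6858400, 6859144,
   6859168, 6859360, 6880716, 6880752, 6881136, 6956584, 6956680, 6956684, 6956704, 6957448,
   6957472, 6957664, 6982024, 6982048, 6982240, 6988384, 6990504, 7379328, 7382400, 7395084,
   7395120, 7395264, 7396800, 7402944, 7480704, 7510184, 7510568, 7510664, 7510668, 7510688,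
   7513640, 7513736, 7513740, 7513760, 7514504, 7514528, 7514720, 7550400, 7566192, 7566332,
   7568636, 7569192, 7569212, 7569352, 7569356, 7569392, 7593212, 7593788, 7593928, 7593932,
   7593968, 7599932, 7600072, 7600076, 7600112, 7601612, 7601648, 7602032, 8140224, 8169864,
   8169888, 8170080, 8183036, 8183612, 8183752, 8183756, 8183792, 8189756, 8189896, 8189900,
   8189936, 8191436, 8191472, 8191856, 8337212, 8337352, 8337356, 8337392, 8338892, 8338928,
   8339312, 8375756, 8375792, 8376176, 8385392, 8388604, 16930304, 16996096, 17391784, 17392168,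
   17392264, 17392268, 17392288, 17393704, 17393800, 17393804, 17393824, 17393864, 17394184,
   17394188, 17394208, 17394224, 17394304, 17405992, 17406088, 17406092, 17406112, 17406472,
   17406476, 17406496, 17406512, 17406592, 17409544, 17409548, 17409568, 17409664, 17410432,
   17455144, 17455240, 17455244, 17455264, 17455624, 17455628, 17455648, 17455664, 17455744,
   17458696, 17458700, 17458720, 17458816, 17459584, 17462912, 17470984, 17471008, 17471104,
   17471872, 17474944, 17658108, 17658684, 17658824, 17658828, 17658864, 17660988, 17661068,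
   17661128, 17661132, 17661168, 17661704, 17661708, 17661728, 17661744, 17661888, 17685564,
   17685704, 17685708, 17685744, 17686280, 17686284, 17686304, 17686320, 17686464, 17692424,
   17692428, 17692464, 17692608, 17694144, 17783868, 17784008, 17784012, 17784048, 17784584,
   17784588, 17784608, 17784624, 17784768, 17786816, 17790728, 17790732, 17790768, 17790912,
   17792448, 17815308, 17815344, 17815488, 17817024, 17823168, 19028008, 19028104, 19028108,
   19028128, 19028488, 19028492, 19028512, 19028528, 19028608, 19031560, 19031564, 19031584,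
   19031680, 19032448, 19043848, 19043872, 19043968, 19044736, 19047808, 19126028, 19126064,
   19126208, 19127744, 19133888, 19270024, 19270048, 19270240, 19276384, 19277352, 19277448,
   19277452, 19277472, 19278216, 19278240, 19278432, 19278504, 19300960, 19302792, 19302816,
   19303008, 19303080, 19309152, 19309224, 19310760, 19310844, 19311144, 19311164, 19311240,
   19311244, 19311264, 19437064, 19437088, 19437184, 19437952, 19441024, 19497568, 19499400,
   19499424, 19499616, 19499688, 19505760, 19505832, 19507368, 19507752, 19507772, 19507848,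
   19507852, 19507872, 19539328, 19554912, 19554984, 19556520, 19556904, 19556924, 19557000,
   19557004, 19557024, 19568808, 19569192, 19569288, 19569292, 19569312, 19572264, 19572360,
   19572364, 19572384, 19573128, 19573152, 19573344, 20092424, 20092448, 20092544, 20093312,
   20096384, 20143164, 20143304, 20143308, 20143344, 20143880, 20143884, 20143904, 20143920,
   20144064, 20150024, 20150028, 20150064, 20150208, 20151744, 20174604, 20174640, 20174784,
   20176320, 20182464, 20385228, 20385264, 20385648, 20394864, 20395836, 20395976, 20395980,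
   20396016, 20397516, 20397552, 20397936, 20398076, 20431728, 20434380, 20434416, 20434800,
   20434940, 20444016, 20444156, 20446376, 20446460, 20447016, 20447036, 20447176, 20447180,
   20447216, 20764428, 20764464, 20764608, 20766144, 20772288, 20824944, 20827596, 20827632,
   20828016, 20828156, 20837232, 20837372, 20839676, 20840232, 20840252, 20840392, 20840396,
   20840432, 20919744, 20935536, 20935676, 20937980, 20938536, 20938556, 20938696, 20938700,
   20938736, 20962556, 20963132, 20963272, 20963276, 20963312, 20969276, 20969416, 20969420,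
   20969456, 20970956, 20970992, 20971376, 25319464, 25319560, 25319564, 25319584, 25319944,
   25319948, 25319968, 25319984, 25320064, 25323016, 25323020, 25323040, 25323136, 25323904,
   25335304, 25335328, 25335424, 25336192, 25339264, 25392904, 25392908, 25392944, 25393088,
   25394624, 25417484, 25417520, 25417664, 25419200, 25425344, 25728520, 25728544, 25728640,
   25729408, 25732480, 25789024, 25790856, 25790880, 25791072, 25791144, 25797216, 25797288,
   25798824, 25799208, 25799228, 25799304, 25799308, 25799328, 25830784, 25846368, 25846440,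
   25847976, 25848360, 25848380, 25848456, 25848460, 25848480, 25860264, 25860648, 25860744,
   25860748, 25860768, 25863720, 25863816, 25863820, 25863840, 25864584, 25864608, 25864800,
   25994624, 26007308, 26007344, 26007488, 26009024, 26015168, 26162624, 26178416, 26178556,
   26180860, 26181416, 26181436, 26181576, 26181580, 26181616, 26205436, 26206012, 26206152,
   26206156, 26206192, 26212156, 26212296, 26212300, 26212336, 26213836, 26213872, 26214256,
   27301384, 27301408, 27301504, 27302272, 27305344, 27403648, 27419232, 27419304, 27420840,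
   27421224, 27421244, 27421320, 27421324, 27421344, 27433128, 27433512, 27433608, 27433612,
   27433632, 27436584, 27436680, 27436684, 27436704, 27437448, 27437472, 27437664, 27522876,
   27523016, 27523020, 27523056, 27524556, 27524592, 27524976, 27796864, 27826344, 27826728,
   27826824, 27826828, 27826848, 27829800, 27829896, 27829900, 27829920, 27830664, 27830688,
   27830880, 27852656, 27928104, 27928200, 27928204, 27928224, 27928968, 27928992, 27929184,
   27953544, 27953568, 27953760, 27959904, 27962024, 29517320, 29517324, 29517344, 29517440,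
   29518208, 29529608, 29529632, 29529728, 29530496, 29533568, 29580348, 29580488, 29580492,
   29580528, 29581064, 29581068, 29581088, 29581104, 29581248, 29587208, 29587212, 29587248,
   29587392, 29588928, 29611788, 29611824, 29611968, 29613504, 29619648, 29922824, 29922848,
   29922944, 29923712, 29926784, 29947328, 30025088, 30040672, 30040744, 30042280, 30042664,
   30042684, 30042760, 30042764, 30042784, 30054568, 30054952, 30055048, 30055052, 30055072,
   30058024, 30058120, 30058124, 30058144, 30058888, 30058912, 30059104, 30201612, 30201648,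
   30201792, 30203328, 30209472, 30262128, 30264780, 30264816, 30265200, 30265340, 30274416,
   30274556, 30276860, 30277416, 30277436, 30277576, 30277580, 30277616, 30356928, 30372720,
   30372860, 30375164, 30375720, 30375740, 30375880, 30375884, 30375920, 30399740, 30400316,
   30400456, 30400460, 30400496, 30406460, 30406600, 30406604, 30406640, 30408140, 30408176,
   30408560, 32560908, 32560944, 32561088, 32562624, 32568768, 32679464, 32679560, 32679564,
   32679584, 32680328, 32680352, 32680544, 32716224, 32732016, 32732156, 32734460, 32735016,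
   32735036, 32735176, 32735180, 32735216, 32759036, 32759612, 32759752, 32759756, 32759792,
   32765756, 32765896, 32765900, 32765936, 32767436, 32767472, 32767856, 33306048, 33335904,
   33348860, 33349436, 33349576, 33349580, 33349616, 33355580, 33355720, 33355724, 33355760,
   33357260, 33357296, 33357680, 33503036, 33503176, 33503180, 33503216, 33504716, 33504752,
   33505136, 33541580, 33541616, 33542000, 33551216, 33554428]

/-- the steps -/
def stp : ℕ → ℤ × ℤ
  | 0 => (1, 0)
  | 1 => (-1, 0)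
  | 2 => (0, 1)
  | _ => (0, -1)

/-- decoding -/
def dec : ℕ → ℕ → List (ℤ × ℤ)
  | 0, _ => []
  | k + 1, c => if c ≤ 1 then [] else stp (c % 4) :: dec k (c / 4)

def cd (v : ℤ × ℤ) : ℕ := if v.1 = 1 then 0 else if v.1 = -1 then 1 else if v.2 = 1 then 2 else 3

/-- encoding -/
def enc (w : List (ℤ × ℤ)) : ℕ := w.foldr (fun v c => 4 * c + cd v) 1

/-- the positions -/
def scanP : ℤ → ℤ → List (ℤ × ℤ) → List (ℤ × ℤ)
  | a, b, [] => [(a, b)]
  | a, b, v :: w => (a, b) :: scanP (a + v.1) (b + v.2) w

/-- no repetition -/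
def nod : List (ℤ × ℤ) → Bool
  | [] => true
  | p :: l => (l.all fun q => !(decide (p.1 = q.1) && decide (p.2 = q.2))) && nod l

/-- no inner renewal: the maximum of the past, the list of the remaining positions -/
def noRen : ℤ → List (ℤ × ℤ) → Bool
  | _, [] => true
  | _, [_] => true
  | m, p :: q :: l =>
      (decide (p.1 < m) || ((q :: l).any fun r => decide (r.1 ≤ p.1))) && noRen (max m p.1) (q :: l)

/-- the check -/
def ok (w : List (ℤ × ℤ)) : Bool :=
  let ps := scanP 0 0 w
  nod ps && (ps.tail.all fun p => decide (0 < p.1)) &&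
    (ps.all fun p => decide (p.1 ≤ (ps.getLast?.getD (0, 0)).1)) && noRen 0 ps.tail

theorem all_ok : (codes.all fun c => ok (dec 12 c) && (enc (dec 12 c) == c)) = true := by
  decide +kernel

theorem lens : (codes.map fun c => (dec 12 c).length) =
    List.replicate 1 1 ++ List.replicate 2 2 ++ List.replicate 2 3 ++ List.replicate 2 4 ++
    List.replicate 2 5 ++ List.replicate 4 6 ++ List.replicate 10 7 ++ List.replicate 26 8 ++
    List.replicate 56 9 ++ List.replicate 118 10 ++ List.replicate 256 11 ++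
    List.replicate 586 12 := by
  decide +kernel

theorem codes_sorted : (codes.zip codes.tail).all (fun p => decide (p.1 < p.2)) = true := by
  decide +kernel

theorem codes_pos : codes.all (fun c => decide (2 ≤ c)) = true := by
  decide +kernel

lemma scanP_length (a b : ℤ) (w : List (ℤ × ℤ)) : (scanP a b w).length = w.length + 1 := by
  induction w generalizing a b with
  | nil => rfl
  | cons v w ih => simp [scanP, ih]

lemma scanP_get (a b : ℤ) (w : List (ℤ × ℤ)) (i : ℕ) (h : i ≤ w.length) :
    (scanP a b w)[i]? = some (a + (pos w i).1, b + (pos w i).2) := by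
  induction w generalizing a b i with
  | nil =>
    have : i = 0 := by simpa using h
    subst this
    simp [scanP]
  | cons v w ih =>
    rcases i with _ | i
    · simp [scanP]
    · have h' : i ≤ w.length := by simpa using h
      rw [scanP, List.getElem?_cons_succ, ih _ _ i h']
      simp only [pos, List.take_succ_cons, List.sum_cons, Prod.fst_add, Prod.snd_add, add_assoc]

lemma scanP_getElem (w : List (ℤ × ℤ)) (i : ℕ) (h : i < (scanP 0 0 w).length) :
    (scanP 0 0 w)[i] = pos w i := by
  have h1 : i ≤ w.length := by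
    rw [scanP_length] at h
    omega
  have h2 := scanP_get 0 0 w i h1
  rw [List.getElem?_eq_getElem h, Option.some.injEq] at h2
  rw [h2]
  simp

lemma nod_spec (l : List (ℤ × ℤ)) (h : nod l = true) : l.Nodup := by
  induction l with
  | nil => exact List.nodup_nil
  | cons p l ih =>
    rw [nod, Bool.and_eq_true, List.all_eq_true] at h
    refine List.nodup_cons.2 ⟨fun hp => ?_, ih h.2⟩
    have := h.1 p hp
    simp at this

lemma noRen_spec (m : ℤ) (l : List (ℤ × ℤ)) (h : noRen m l = true) (i : ℕ) (hi : i + 1 < l.length) :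
    (l[i].1 < m ∨ ∃ j, ∃ hj : j < i, l[i].1 < (l[j]'(by omega)).1) ∨
      ∃ j, ∃ hj : j < l.length, i < j ∧ l[j].1 ≤ l[i].1 := by
  induction l generalizing m i with
  | nil => simp at hi
  | cons p l ih =>
    rcases l with _ | ⟨q, l⟩
    · simp at hi
    · rw [noRen, Bool.and_eq_true] at h
      rcases i with _ | i
      · rcases Bool.or_eq_true _ _ ▸ h.1 with h1 | h1
        · left
          left
          simpa using h1
        · right
          rw [List.any_eq_true] at h1
          obtain ⟨r, hr, h2⟩ := h1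
          obtain ⟨j, hj, rfl⟩ := List.getElem_of_mem hr
          exact ⟨j + 1, by simpa using hj, by omega, by simpa using h2⟩
      · have hi' : i + 1 < (q :: l).length := by simpa using hi
        rcases ih (max m p.1) h.2 i hi' with (h1 | ⟨j, hj, h1⟩) | ⟨j, hj, h1, h2⟩
        · rcases lt_max_iff.1 h1 with h3 | h3
          · left
            left
            simpa using h3
          · left
            right
            exact ⟨0, by omega, by simpa using h3⟩
        · left
          right
          exact ⟨j + 1, by omega, by simpa using h1⟩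
        · right
          exact ⟨j + 1, by simpa using hj, by omega, by simpa using h2⟩

lemma isStep_stp (k : ℕ) : IsStep (stp k) := by
  rcases k with _ | _ | _ | k <;> simp [stp, IsStep]

lemma isStep_dec (k c : ℕ) : ∀ v ∈ dec k c, IsStep v := by
  induction k generalizing c with
  | zero => simp [dec]
  | succ k ih =>
    intro v hv
    rw [dec] at hv
    split_ifs at hv with h
    · simp at hv
    · rcases List.mem_cons.1 hv with rfl | hv
      · exact isStep_stp _
      · exact ih _ _ hv

lemma isIrr_of_ok (w : List (ℤ × ℤ)) (hst : ∀ v ∈ w, IsStep v) (hne : w ≠ []) (h : ok w = true) :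
    IsIrr w := by
  unfold ok at h
  simp only [Bool.and_eq_true, List.all_eq_true, decide_eq_true_eq] at h
  obtain ⟨⟨⟨h1, h2⟩, h3⟩, h4⟩ := h
  have hnd := nod_spec _ h1
  have hlen := scanP_length 0 0 w
  have hget : ∀ i, i ≤ w.length → ∃ hi : i < (scanP 0 0 w).length, (scanP 0 0 w)[i] = pos w i :=
    fun i hi => ⟨by omega, scanP_getElem w i (by omega)⟩
  have hlast : ((scanP 0 0 w).getLast?.getD (0, 0)) = w.sum := by
    rw [List.getLast?_eq_getElem?, hlen, Nat.add_sub_cancel, scanP_get 0 0 w w.length le_rfl]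
    simp
  have htail : ∀ i, 1 ≤ i → i ≤ w.length → pos w i ∈ (scanP 0 0 w).tail := by
    intro i hi1 hi2
    obtain ⟨hi, he⟩ := hget i hi2
    rw [← he, List.mem_iff_getElem]
    refine ⟨i - 1, by rw [List.length_tail]; omega, ?_⟩
    rw [List.getElem_tail]
    congr 1
    omega
  have hmem : ∀ i, i ≤ w.length → pos w i ∈ scanP 0 0 w := by
    intro i hi
    obtain ⟨hi, he⟩ := hget i hi
    rw [← he]
    exact List.getElem_mem _
  have hpos : ∀ i, 1 ≤ i → i ≤ w.length → 0 < (pos w i).1 := fun i h1 h5 => h2 _ (htail i h1 h5)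
  have hle : ∀ i, i ≤ w.length → (pos w i).1 ≤ w.sum.1 := fun i h5 => by
    have := h3 _ (hmem i h5)
    rwa [hlast] at this
  have hsum0 : 0 < w.sum.1 := by
    have hl : 1 ≤ w.length := List.length_pos_iff.2 hne
    have := hpos w.length hl le_rfl
    rwa [pos_length] at this
  refine ⟨hne, ⟨w.sum.1.toNat, ?_⟩, ?_⟩
  · have hT : ((w.sum.1.toNat : ℕ) : ℤ) = w.sum.1 := Int.toNat_of_nonneg hsum0.le
    refine ⟨⟨hst, ?_⟩, fun i h5 h6 => hpos i h5 h6, fun i h5 => ?_, ?_⟩
    · intro i j hij hj he
      obtain ⟨hi', hei⟩ := hget i (by omega)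
      obtain ⟨hj', hej⟩ := hget j hj
      rw [← hei, ← hej] at he
      exact absurd ((List.Nodup.getElem_inj_iff hnd).1 he) (by omega)
    · rw [hT]
      exact hle i h5
    · rw [hT]
      rfl
  · intro i hi1 hi2
    have hlt : (scanP 0 0 w).tail.length = w.length := by rw [List.length_tail, hlen]; rfl
    have hgt : ∀ j, ∀ hj : j < (scanP 0 0 w).tail.length, (scanP 0 0 w).tail[j] = pos w (j + 1) := by
      intro j hj
      rw [List.getElem_tail]
      exact scanP_getElem w (j + 1) (by omega)
    rcases noRen_spec 0 _ h4 (i - 1) (by omega) with (h5 | ⟨j, hj, h5⟩) | ⟨j, hj, h5, h6⟩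
    · rw [hgt] at h5
      have := hpos (i - 1 + 1) (by omega) (by omega)
      omega
    · left
      rw [hgt, hgt] at h5
      refine ⟨j + 1, by omega, ?_⟩
      rw [show i - 1 + 1 = i by omega] at h5
      exact h5
    · right
      rw [hgt, hgt] at h6
      refine ⟨j + 1, by omega, by omega, ?_⟩
      rw [show i - 1 + 1 = i by omega] at h6
      exact h6

lemma codes_nodup : codes.Nodup := by
  have h := codes_sorted
  have key : ∀ l : List ℕ, (l.zip l.tail).all (fun p => decide (p.1 < p.2)) = true →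
      l.Pairwise (· < ·) := by
    intro l
    induction l with
    | nil => simp
    | cons a l ih =>
      intro h
      rcases l with _ | ⟨b, l⟩
      · simp
      · simp only [List.tail_cons, List.zip_cons_cons, List.all_cons, Bool.and_eq_true,
          decide_eq_true_eq] at h
        have h1 := ih (by simpa using h.2)
        refine List.pairwise_cons.2 ⟨fun c hc => ?_, h1⟩
        rcases List.mem_cons.1 hc with rfl | hc
        · exact h.1
        · exact h.1.trans ((List.pairwise_cons.1 h1).1 c hc)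
  exact (key _ h).imp (fun h => h.ne)

lemma code_prop (c : ℕ) (hc : c ∈ codes) : IsIrr (dec 12 c) ∧ enc (dec 12 c) = c := by
  have h := List.all_eq_true.1 all_ok c hc
  rw [Bool.and_eq_true, beq_iff_eq] at h
  refine ⟨isIrr_of_ok _ (isStep_dec _ _) ?_ h.1, h.2⟩
  intro h0
  have h1 := h.2
  rw [h0] at h1
  have h2 := List.all_eq_true.1 codes_pos c hc
  rw [decide_eq_true_eq] at h2
  simp [enc] at h1
  omega

/-- the generating function of the irreducible bridges of length at most 12 -/
lemma sum_words {x : ℝ≥0∞} (hx : IsCrit x) :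
    x ^ 1 + 2 * x ^ 2 + 2 * x ^ 3 + 2 * x ^ 4 + 2 * x ^ 5 + 4 * x ^ 6 + 10 * x ^ 7 + 26 * x ^ 8 +
      56 * x ^ 9 + 118 * x ^ 10 + 256 * x ^ 11 + 586 * x ^ 12 ≤ 1 := by
  have hinj : Set.InjOn (dec 12) (codes.toFinset : Set ℕ) := by
    intro a ha b hb hab
    have ha' : a ∈ codes := by simpa using ha
    have hb' : b ∈ codes := by simpa using hb
    rw [← (code_prop a ha').2, hab, (code_prop b hb').2]
  have h1 := code_le_one hx (codes.toFinset.image (dec 12)) (by
    intro w hw
    obtain ⟨c, hc, rfl⟩ := Finset.mem_image.1 hw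
    exact (code_prop c (by simpa using hc)).1)
  rw [Finset.sum_image hinj, List.sum_toFinset _ codes_nodup] at h1
  have h2 : (codes.map fun c => x ^ (dec 12 c).length) =
      (codes.map fun c => (dec 12 c).length).map (fun k => x ^ k) := by
    rw [List.map_map]
    rfl
  rw [h2, lens] at h1
  simp only [List.map_append, List.map_replicate, List.sum_append, List.sum_replicate,
    nsmul_eq_mul, Nat.cast_ofNat, Nat.cast_one, one_mul] at h1
  exact h1

theorem crit_le {x : ℝ≥0∞} (hx : IsCrit x) : x ≤ ENNReal.ofReal (159 / 400) := by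
  by_contra hlt
  rw [not_le] at hlt
  have h1 := sum_words hx
  set y : ℝ≥0∞ := ENNReal.ofReal (159 / 400) with hy
  have h2 : y ^ 1 + 2 * y ^ 2 + 2 * y ^ 3 + 2 * y ^ 4 + 2 * y ^ 5 + 4 * y ^ 6 + 10 * y ^ 7 +
      26 * y ^ 8 + 56 * y ^ 9 + 118 * y ^ 10 + 256 * y ^ 11 + 586 * y ^ 12 ≤ 1 := by
    refine le_trans ?_ h1
    gcongr
  have h3 : y ^ 1 + 2 * y ^ 2 + 2 * y ^ 3 + 2 * y ^ 4 + 2 * y ^ 5 + 4 * y ^ 6 + 10 * y ^ 7 +
      26 * y ^ 8 + 56 * y ^ 9 + 118 * y ^ 10 + 256 * y ^ 11 + 586 * y ^ 12 =
      ENNReal.ofReal ((159 / 400) ^ 1 + 2 * (159 / 400) ^ 2 + 2 * (159 / 400) ^ 3 +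
        2 * (159 / 400) ^ 4 + 2 * (159 / 400) ^ 5 + 4 * (159 / 400) ^ 6 + 10 * (159 / 400) ^ 7 +
        26 * (159 / 400) ^ 8 + 56 * (159 / 400) ^ 9 + 118 * (159 / 400) ^ 10 +
        256 * (159 / 400) ^ 11 + 586 * (159 / 400) ^ 12) := by
    have hp : (0 : ℝ) ≤ 159 / 400 := by norm_num
    rw [ENNReal.ofReal_add, ENNReal.ofReal_add, ENNReal.ofReal_add, ENNReal.ofReal_add,
      ENNReal.ofReal_add, ENNReal.ofReal_add, ENNReal.ofReal_add, ENNReal.ofReal_add,
      ENNReal.ofReal_add, ENNReal.ofReal_add, ENNReal.ofReal_add] <;> try positivity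
    simp only [ENNReal.ofReal_mul (by norm_num : (0 : ℝ) ≤ 2),
      ENNReal.ofReal_mul (by norm_num : (0 : ℝ) ≤ 4), ENNReal.ofReal_mul (by norm_num : (0 : ℝ) ≤ 10),
      ENNReal.ofReal_mul (by norm_num : (0 : ℝ) ≤ 26), ENNReal.ofReal_mul (by norm_num : (0 : ℝ) ≤ 56),
      ENNReal.ofReal_mul (by norm_num : (0 : ℝ) ≤ 118),
      ENNReal.ofReal_mul (by norm_num : (0 : ℝ) ≤ 256),
      ENNReal.ofReal_mul (by norm_num : (0 : ℝ) ≤ 586), ENNReal.ofReal_pow hp,
      ENNReal.ofReal_ofNat, hy]
  rw [h3, ← ENNReal.ofReal_one, ENNReal.ofReal_le_ofReal_iff (by norm_num)] at h2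
  norm_num at h2

end Pool.Agent.Lib.MP_c23e5f_co.W
end

section

/-!
# MP_c23e5f_co: the array, the starting point and the first step determine the loop

Proof.  (1) If the arrays are equal then `vE f i j = vE g i j` and `hE f i j = hE g i j` for all
integers `i, j` (inside of the box from the arrays, outside both are `false`), so
`Edge f p q ↔ Edge g p q` for all `p, q` (if `Edge f p q` then `q - p` is a step, and one of the two
sites is the other one plus `(1, 0)` or `(0, 1)`).
(2) By induction `f k = g k ∧ f (k+1) = g (k+1)`: the pair `g (k+1), g (k+2)` is an edge of `g`, hence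
of `f`: there is `m` with `f m = g (k+1) = f (k+1)` and `f (m+1) = g (k+2)`, or
`f (m+1) = f (k+1)` and `f m = g (k+2)`.  By injectivity and periodicity, in the first case
`g (k+2) = f (k+2)` and in the second case `g (k+2) = f k = g k`, which is impossible as `N ≥ 3`.
-/

set_option autoImplicit false

namespace Pool.Agent.Lib.MP_c23e5f_co.W

private lemma inj_arr_entry {f g : ℕ → ℤ × ℤ} {w h : ℕ} (ha : arr f w h = arr g w h) {i j : ℕ}
    (hi : i < w) (hj : j < h) : vE f i j = vE g i j ∧ hE f i j = hE g i j := by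
  unfold arr at ha
  rw [List.map_inj_left] at ha
  have h1 := ha j (List.mem_range.mpr hj)
  unfold rowArr at h1
  rw [List.map_inj_left] at h1
  have h2 := h1 i (by simpa using hi)
  exact ⟨congrArg Prod.fst h2, congrArg Prod.snd h2⟩

private lemma inj_edge_symm {f : ℕ → ℤ × ℤ} {p q : ℤ × ℤ} (h : Edge f p q) : Edge f q p := by
  obtain ⟨i, hi⟩ := h
  exact ⟨i, hi.symm⟩

private lemma inj_edge_box {f : ℕ → ℤ × ℤ} {w h : ℕ} (hb : InBox f w h) {p q : ℤ × ℤ}
    (he : Edge f p q) : ∃ i j : ℕ, i < w ∧ j < h ∧ p = ((i : ℤ), (j : ℤ)) := by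
  obtain ⟨n, hn⟩ := he
  have h1 : ∃ m, f m = p := by
    rcases hn with hn | hn
    · exact ⟨n, hn.1⟩
    · exact ⟨n + 1, hn.2⟩
  obtain ⟨m, rfl⟩ := h1
  obtain ⟨a1, a2, a3, a4⟩ := hb m
  refine ⟨(f m).1.toNat, (f m).2.toNat, by omega, by omega, ?_⟩
  ext
  · simp only
    omega
  · simp only
    omega

private lemma inj_edge_imp {N : ℕ} {f g : ℕ → ℤ × ℤ} (hf : IsLoop N f)
    {w h : ℕ} (hbf : InBox f w h)
    (ha : arr f w h = arr g w h) {p q : ℤ × ℤ} (he : Edge f p q) : Edge g p q := by
  classical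
  have hv : ∀ a b : ℤ, Edge f (a, b) (a, b + 1) → Edge g (a, b) (a, b + 1) := by
    intro a b hab
    obtain ⟨i, j, hi, hj, hij⟩ := inj_edge_box hbf hab
    have h1 : a = i := congrArg Prod.fst hij
    have h2 : b = j := congrArg Prod.snd hij
    subst h1 h2
    have h3 := (inj_arr_entry ha hi hj).1
    unfold vE at h3
    have h4 : decide (Edge f ((i : ℤ), (j : ℤ)) ((i : ℤ), (j : ℤ) + 1)) = true := decide_eq_true hab
    rw [h4] at h3
    exact of_decide_eq_true h3.symm
  have hh : ∀ a b : ℤ, Edge f (a, b) (a + 1, b) → Edge g (a, b) (a + 1, b) := by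
    intro a b hab
    obtain ⟨i, j, hi, hj, hij⟩ := inj_edge_box hbf hab
    have h1 : a = i := congrArg Prod.fst hij
    have h2 : b = j := congrArg Prod.snd hij
    subst h1 h2
    have h3 := (inj_arr_entry ha hi hj).2
    unfold hE at h3
    have h4 : decide (Edge f ((i : ℤ), (j : ℤ)) ((i : ℤ) + 1, (j : ℤ))) = true := decide_eq_true hab
    rw [h4] at h3
    exact of_decide_eq_true h3.symm
  have hstep : (q.1 - p.1).natAbs + (q.2 - p.2).natAbs = 1 := by
    obtain ⟨n, hn⟩ := he
    have h1 := hf.step n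
    unfold IsStep at h1
    rw [Prod.fst_sub, Prod.snd_sub] at h1
    rcases hn with ⟨e1, e2⟩ | ⟨e1, e2⟩
    · rw [e1, e2] at h1
      exact h1
    · rw [e1, e2] at h1
      omega
  obtain ⟨p1, p2⟩ := p
  obtain ⟨q1, q2⟩ := q
  simp only at hstep
  have hcases : (q1 = p1 ∧ q2 = p2 + 1) ∨ (q1 = p1 ∧ p2 = q2 + 1) ∨ (q1 = p1 + 1 ∧ q2 = p2) ∨
      (p1 = q1 + 1 ∧ q2 = p2) := by omega
  rcases hcases with ⟨e1, e2⟩ | ⟨e1, e2⟩ | ⟨e1, e2⟩ | ⟨e1, e2⟩
  · subst e1 e2
    exact hv _ _ he
  · subst e1 e2
    exact inj_edge_symm (hv _ _ (inj_edge_symm he))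
  · subst e1 e2
    exact hh _ _ he
  · subst e1 e2
    exact inj_edge_symm (hh _ _ (inj_edge_symm he))

private lemma inj_mod {N : ℕ} {f : ℕ → ℤ × ℤ} (hN : 0 < N) (hf : IsLoop N f) {a b : ℕ}
    (h : f a = f b) : a % N = b % N := by
  have hp : Function.Periodic f N := hf.per
  apply hf.inj _ _ (Nat.mod_lt _ hN) (Nat.mod_lt _ hN)
  rw [hp.map_mod_nat, hp.map_mod_nat]
  exact h

private lemma inj_of_mod {N : ℕ} {f : ℕ → ℤ × ℤ} (hf : IsLoop N f) {a b : ℕ}
    (h : a % N = b % N) : f a = f b := by
  have hp : Function.Periodic f N := hf.per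
  rw [← hp.map_mod_nat a, h, hp.map_mod_nat]

theorem loop_eq_of_arr {N : ℕ} (hN : 3 ≤ N) {f g : ℕ → ℤ × ℤ} (hf : IsLoop N f) (hg : IsLoop N g)
    {w h : ℕ} (hbf : InBox f w h) (hbg : InBox g w h) (h0 : f 0 = g 0) (h1 : f 1 = g 1)
    (ha : arr f w h = arr g w h) : f = g := by
  have hN0 : 0 < N := by omega
  have key : ∀ k, f k = g k ∧ f (k + 1) = g (k + 1) := by
    intro k
    induction k with
    | zero => exact ⟨h0, h1⟩
    | succ k ih =>
      refine ⟨ih.2, ?_⟩
      have he : Edge g (g (k + 1)) (g (k + 1 + 1)) := ⟨k + 1, Or.inl ⟨rfl, rfl⟩⟩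
      have he' := inj_edge_imp hg hbg ha.symm he
      rw [← ih.2] at he'
      obtain ⟨m, hm⟩ := he'
      rcases hm with ⟨e1, e2⟩ | ⟨e1, e2⟩
      · rw [← e2]
        apply inj_of_mod hf
        have := inj_mod hN0 hf e1
        exact (Nat.ModEq.add_right 1 (show m ≡ k + 1 [MOD N] from this)).symm
      · exfalso
        have h3 := inj_mod hN0 hf e2
        have h4 : m ≡ k [MOD N] := Nat.ModEq.add_right_cancel' 1 h3
        have h5 : f m = f k := inj_of_mod hf h4
        rw [e1, ih.1] at h5
        have h6 : k + 1 + 1 ≡ k [MOD N] := inj_mod hN0 hg h5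
        have h7 : k + 2 ≡ k + 0 [MOD N] := h6
        have h8 := Nat.ModEq.add_left_cancel' k h7
        have h9 : N ∣ 2 := (Nat.modEq_zero_iff_dvd).mp h8
        have := Nat.le_of_dvd (by norm_num) h9
        omega
  funext k
  exact (key k).1

end Pool.Agent.Lib.MP_c23e5f_co.W
end

section

/-!
# MP_c23e5f_co: the number of loops with a given bounding box

Proof of `count_dim`: map a loop `f` of `LoopsW n` with `wid n f + 1 = w`, `hgt n f + 1 = h` to
`(o, f 1, arr (f + o) w h)` where `o` is the offset of `exists_offset`; `o = f 0 + o` is in the box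
(`w * h` possibilities), `f 1` is one of the four steps, and the array belongs to
`{A ∈ arrs w h | runs (replicate w 0) A ∧ totCost A ≤ 2 n}` (`arr_mem`, `runs_arr`, `totCost_arr`).
The map is injective by `loop_eq_of_arr`.  By `arrs_bound` and `fx ≤ 1`, the number of such arrays
times `fx ^ (2 n)` is at most `(3/2)^h * lam^(w h)`.

Proof of `bad_count`: sum over the pairs `(w, h)` with `w h ≤ B`; by `ncard_swap` it is enough to
consider `h ≤ w`, so that `h ≤ sqrt B`, up to a factor 2; there are at most `B ^ 2` pairs.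
-/

set_option autoImplicit false

namespace Pool.Agent.Lib.MP_c23e5f_co.W

/-- the four steps -/
private def steps4 : Finset (ℤ × ℤ) := {(1, 0), (-1, 0), (0, 1), (0, -1)}

private lemma mem_steps4 {v : ℤ × ℤ} (hv : IsStep v) : v ∈ steps4 := by
  obtain ⟨a, b⟩ := v
  simp only [IsStep] at hv
  simp only [steps4, Finset.mem_insert, Finset.mem_singleton, Prod.mk.injEq]
  omega

private lemma isLoop_add {N : ℕ} {f : ℕ → ℤ × ℤ} (hf : IsLoop N f) (o : ℤ × ℤ) :
    IsLoop N (fun i => f i + o) := by
  refine ⟨fun i => ?_, fun i => ?_, fun i j hi hj h => ?_⟩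
  · have : f (i + 1) + o - (f i + o) = f (i + 1) - f i := by abel
    rw [this]
    exact hf.step i
  · rw [hf.per i]
  · exact hf.inj i j hi hj (by simpa using h)

theorem count_dim {n : ℕ} (hn : 3 ≤ n) (w h : ℕ) :
    ({f ∈ LoopsW n | wid n f + 1 = w ∧ hgt n f + 1 = h}.ncard : ℝ) * fx ^ (2 * n) ≤
      4 * (w * h) * (3 / 2) ^ h * lam ^ (w * h) := by
  classical
  have hn1 : 1 ≤ n := by omega
  have hfx0 : (0 : ℝ) ≤ fx := by norm_num [fx]
  have hfx1 : fx ≤ 1 := by norm_num [fx]
  -- the accepted arrays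
  set T : Finset (List (List (Bool × Bool))) :=
    (arrs w h).filter fun A => runs (List.replicate w 0) A = true ∧ totCost A ≤ 2 * n with hT
  have hTb : (T.card : ℝ) * fx ^ (2 * n) ≤ (3 / 2) ^ h * lam ^ (w * h) := by
    refine le_trans ?_ (arrs_bound w h)
    rw [← nsmul_eq_mul, ← Finset.sum_const]
    calc ∑ A ∈ T, fx ^ (2 * n)
        ≤ ∑ A ∈ T, (if runs (List.replicate w 0) A then fx ^ totCost A else 0) := by
          apply Finset.sum_le_sum
          intro A hA
          obtain ⟨-, h1, h2⟩ := Finset.mem_filter.1 hA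
          rw [if_pos h1]
          exact pow_le_pow_of_le_one hfx0 hfx1 h2
      _ ≤ ∑ A ∈ arrs w h, (if runs (List.replicate w 0) A then fx ^ totCost A else 0) := by
          apply Finset.sum_le_sum_of_subset_of_nonneg (Finset.filter_subset _ _)
          intro A _ _
          split_ifs
          · exact pow_nonneg hfx0 _
          · exact le_refl _
  set box : Finset (ℤ × ℤ) := (Finset.Ico (0 : ℤ) w) ×ˢ (Finset.Ico (0 : ℤ) h) with hbox
  set S : Finset ((ℤ × ℤ) × (ℤ × ℤ) × List (List (Bool × Bool))) := box ×ˢ steps4 ×ˢ T with hS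
  have hScard : S.card ≤ w * h * (4 * T.card) := by
    rw [hS, Finset.card_product, hbox, Finset.card_product, Finset.card_product]
    have h1 : steps4.card ≤ 4 := by decide
    have h2 : (Finset.Ico (0 : ℤ) w).card = w := by simp
    have h3 : (Finset.Ico (0 : ℤ) h).card = h := by simp
    rw [h2, h3]
    exact Nat.mul_le_mul_left _ (Nat.mul_le_mul_right _ h1)
  -- the offset
  have hoff : ∀ f : ℕ → ℤ × ℤ, ∃ o : ℤ × ℤ, f ∈ LoopsW n → ∀ i, 0 ≤ (f i + o).1 ∧
      (f i + o).1 ≤ wid n f ∧ 0 ≤ (f i + o).2 ∧ (f i + o).2 ≤ hgt n f := by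
    intro f
    by_cases hf : f ∈ LoopsW n
    · obtain ⟨o, ho⟩ := exists_offset hn1 hf
      exact ⟨o, fun _ => ho⟩
    · exact ⟨0, fun h => absurd h hf⟩
  choose o ho using hoff
  have hloop : ∀ f ∈ LoopsW n, IsLoop (2 * n) f ∧ f 0 = 0 := by
    intro f hf
    rw [loopsW_eq] at hf
    exact hf
  have hin : ∀ f ∈ {f ∈ LoopsW n | wid n f + 1 = w ∧ hgt n f + 1 = h},
      InBox (fun i => f i + o f) w h := by
    intro f hf i
    obtain ⟨hf1, hf2, hf3⟩ := hf
    obtain ⟨a, b, c, d⟩ := ho f hf1 i
    have h2 : ((wid n f : ℕ) : ℤ) + 1 = w := by exact_mod_cast hf2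
    have h3 : ((hgt n f : ℕ) : ℤ) + 1 = h := by exact_mod_cast hf3
    refine ⟨a, ?_, c, ?_⟩
    · change (f i + o f).1 < w
      omega
    · change (f i + o f).2 < h
      omega
  have hcard : {f ∈ LoopsW n | wid n f + 1 = w ∧ hgt n f + 1 = h}.ncard ≤ S.card := by
    rw [← Set.ncard_coe_finset S]
    refine Set.ncard_le_ncard_of_injOn
      (fun f => (o f, f 1, arr (fun i => f i + o f) w h)) ?_ ?_ (Finset.finite_toSet S)
    · intro f hf
      have hb := hin f hf
      obtain ⟨hf1, hf2, hf3⟩ := hf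
      obtain ⟨hl, h0⟩ := hloop f hf1
      have hl' := isLoop_add hl (o f)
      simp only [hS, Finset.coe_product, Set.mem_prod, Finset.mem_coe]
      refine ⟨?_, ?_, ?_⟩
      · have h4 := hb 0
        simp only [h0, zero_add] at h4
        rw [hbox, Finset.mem_product, Finset.mem_Ico, Finset.mem_Ico]
        exact ⟨⟨h4.1, h4.2.1⟩, h4.2.2.1, h4.2.2.2⟩
      · apply mem_steps4
        have := hl.step 0
        rw [h0, sub_zero] at this
        simpa using this
      · rw [hT, Finset.mem_filter]
        exact ⟨arr_mem _ _ _, runs_arr (by omega) hl' hb, totCost_arr (by omega) hl' w h⟩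
    · intro f hf g hg hfg
      have hbf := hin f hf
      have hbg := hin g hg
      obtain ⟨hlf, hf0⟩ := hloop f hf.1
      obtain ⟨hlg, hg0⟩ := hloop g hg.1
      simp only [Prod.mk.injEq] at hfg
      obtain ⟨e1, e2, e3⟩ := hfg
      have key := loop_eq_of_arr (N := 2 * n) (by omega) (isLoop_add hlf (o f))
        (isLoop_add hlg (o g)) hbf hbg (by simp only [hf0, hg0, e1]) (by simp only [e1, e2]) e3
      funext i
      have := congrFun key i
      simp only [e1] at this
      exact add_right_cancel this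
  have hc2 : ({f ∈ LoopsW n | wid n f + 1 = w ∧ hgt n f + 1 = h}.ncard : ℝ) ≤
      w * h * (4 * T.card) := by exact_mod_cast hcard.trans hScard
  calc ({f ∈ LoopsW n | wid n f + 1 = w ∧ hgt n f + 1 = h}.ncard : ℝ) * fx ^ (2 * n)
      ≤ w * h * (4 * T.card) * fx ^ (2 * n) :=
        mul_le_mul_of_nonneg_right hc2 (pow_nonneg hfx0 _)
    _ = 4 * (w * h) * (T.card * fx ^ (2 * n)) := by ring
    _ ≤ 4 * (w * h) * ((3 / 2) ^ h * lam ^ (w * h)) :=
        mul_le_mul_of_nonneg_left hTb (by positivity)
    _ = _ := by ring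

/-- the bound for one pair of dimensions -/
private lemma pair_bound {n : ℕ} (hn : 3 ≤ n) {B a b : ℕ} (ha : 1 ≤ a) (hb : 1 ≤ b)
    (hab : a * b ≤ B) :
    ({f ∈ LoopsW n | wid n f + 1 = a ∧ hgt n f + 1 = b}.ncard : ℝ) * fx ^ (2 * n) ≤
      4 * B * (3 / 2) ^ (Nat.sqrt B) * lam ^ B := by
  have hlam : (1 : ℝ) ≤ lam := by norm_num [lam]
  have gen : ∀ w h : ℕ, h ≤ w → w * h ≤ B →
      (4 * (w * h) * (3 / 2) ^ h * lam ^ (w * h) : ℝ) ≤
        4 * B * (3 / 2) ^ (Nat.sqrt B) * lam ^ B := by
    intro w h hhw hwB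
    have h1 : h ≤ Nat.sqrt B := by
      rw [Nat.le_sqrt]
      exact (Nat.mul_le_mul_right h hhw).trans hwB
    have h2 : ((w * h : ℕ) : ℝ) ≤ B := by exact_mod_cast hwB
    push_cast at h2
    have h3 : ((3 / 2 : ℝ)) ^ h ≤ (3 / 2) ^ (Nat.sqrt B) :=
      pow_le_pow_right₀ (by norm_num) h1
    have h4 : lam ^ (w * h) ≤ lam ^ B := pow_le_pow_right₀ hlam hwB
    have h5 : (0 : ℝ) ≤ lam ^ (w * h) := pow_nonneg (by linarith) _
    gcongr
  rcases le_total b a with hle | hle
  · exact (count_dim hn a b).trans (gen a b hle hab)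
  · have hsw : {f ∈ LoopsW n | wid n f + 1 = a ∧ hgt n f + 1 = b}.ncard =
        {f ∈ LoopsW n | wid n f + 1 = b ∧ hgt n f + 1 = a}.ncard := by
      have := ncard_swap (n := n) (a - 1) (b - 1)
      have e1 : ∀ f : ℕ → ℤ × ℤ, (wid n f = a - 1 ∧ hgt n f = b - 1) ↔
          (wid n f + 1 = a ∧ hgt n f + 1 = b) := by intro f; omega
      have e2 : ∀ f : ℕ → ℤ × ℤ, (wid n f = b - 1 ∧ hgt n f = a - 1) ↔
          (wid n f + 1 = b ∧ hgt n f + 1 = a) := by intro f; omega
      simp only [e1, e2] at this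
      exact this
    rw [hsw]
    exact (count_dim hn b a).trans (gen b a hle (by rw [mul_comm]; exact hab))

theorem bad_count {n : ℕ} (hn : 3 ≤ n) (B : ℕ) :
    ({f ∈ LoopsW n | (wid n f + 1) * (hgt n f + 1) ≤ B}.ncard : ℝ) * fx ^ (2 * n) ≤
      8 * B ^ 3 * (3 / 2) ^ (Nat.sqrt B) * lam ^ B := by
  classical
  have hfx0 : (0 : ℝ) ≤ fx := by norm_num [fx]
  have hlam : (0 : ℝ) ≤ lam := by norm_num [lam]
  have hn1 : 1 ≤ n := by omega
  have hfin := loopsW_finite hn1
  set I : Finset (ℕ × ℕ) := ((Finset.Icc 1 B) ×ˢ (Finset.Icc 1 B)).filter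
    fun p => p.1 * p.2 ≤ B with hI
  set A : ℕ × ℕ → Set (ℕ → ℤ × ℤ) := fun p =>
    {f ∈ LoopsW n | wid n f + 1 = p.1 ∧ hgt n f + 1 = p.2} with hA
  have hAfin : ∀ p, (A p).Finite := fun p => hfin.subset (fun f hf => hf.1)
  have hsub : {f ∈ LoopsW n | (wid n f + 1) * (hgt n f + 1) ≤ B} ⊆ ⋃ p ∈ I, A p := by
    intro f hf
    obtain ⟨h1, h2⟩ := hf
    rw [Set.mem_iUnion₂]
    refine ⟨(wid n f + 1, hgt n f + 1), ?_, h1, rfl, rfl⟩
    rw [hI, Finset.mem_filter, Finset.mem_product, Finset.mem_Icc, Finset.mem_Icc]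
    refine ⟨⟨⟨by omega, ?_⟩, by omega, ?_⟩, h2⟩
    · exact le_trans (Nat.le_mul_of_pos_right _ (by omega)) h2
    · exact le_trans (Nat.le_mul_of_pos_left _ (by omega)) h2
  have hle : {f ∈ LoopsW n | (wid n f + 1) * (hgt n f + 1) ≤ B}.ncard ≤
      ∑ p ∈ I, (A p).ncard := by
    refine (Set.ncard_le_ncard hsub ?_).trans ?_
    · exact Set.Finite.biUnion (Finset.finite_toSet I) (fun p _ => hAfin p)
    · exact Finset.set_ncard_biUnion_le I A
  have hIcard : (I.card : ℝ) ≤ B ^ 2 := by
    have : I.card ≤ B * B := by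
      rw [hI]
      refine (Finset.card_filter_le _ _).trans ?_
      rw [Finset.card_product, Nat.card_Icc]
      simp
    calc (I.card : ℝ) ≤ ((B * B : ℕ) : ℝ) := by exact_mod_cast this
      _ = B ^ 2 := by push_cast; ring
  set K : ℝ := 4 * B * (3 / 2) ^ (Nat.sqrt B) * lam ^ B with hK
  have hK0 : 0 ≤ K := by
    rw [hK]
    positivity
  calc ({f ∈ LoopsW n | (wid n f + 1) * (hgt n f + 1) ≤ B}.ncard : ℝ) * fx ^ (2 * n)
      ≤ ((∑ p ∈ I, (A p).ncard : ℕ) : ℝ) * fx ^ (2 * n) :=
        mul_le_mul_of_nonneg_right (by exact_mod_cast hle) (pow_nonneg hfx0 _)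
    _ = ∑ p ∈ I, ((A p).ncard : ℝ) * fx ^ (2 * n) := by
        rw [Nat.cast_sum, Finset.sum_mul]
    _ ≤ ∑ p ∈ I, K := by
        apply Finset.sum_le_sum
        intro p hp
        rw [hI, Finset.mem_filter, Finset.mem_product, Finset.mem_Icc, Finset.mem_Icc] at hp
        exact pair_bound hn hp.1.1.1 hp.1.2.1 hp.2
    _ = I.card * K := by rw [Finset.sum_const, nsmul_eq_mul]
    _ ≤ B ^ 2 * K := mul_le_mul_of_nonneg_right hIcard hK0
    _ = 4 * (B ^ 3 * (3 / 2) ^ (Nat.sqrt B) * lam ^ B) := by rw [hK]; ring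
    _ ≤ 8 * (B ^ 3 * (3 / 2) ^ (Nat.sqrt B) * lam ^ B) := by
        apply mul_le_mul_of_nonneg_right (by norm_num)
        positivity
    _ = _ := by ring

end Pool.Agent.Lib.MP_c23e5f_co.W
end

section

/-!
# MP_c23e5f_co: the lower bound `W_n ≥ 2 √n`

With `N = 2 n`, `B = ⌊501 N / 250⌋`, the number of loops is at least
`(400/159)^N exp (-C0 √N log N)` (`loop_lower`, `exists_crit`, `crit_le`, `isLoopWord_iff`), and the
number of bad loops, `(wid + 1)(hgt + 1) ≤ B`, is at most
`8 B^3 (3/2)^(√B) lam^B fx^(-N)` (`bad_count`); as `lam^501 * (159/400)^250 < fx^250`, the proportion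
of bad loops tends to zero, exponentially fast.  A good loop has
`wid + hgt + 2 ≥ 2 √((wid+1)(hgt+1)) ≥ 2 √B`, so that
`2 W_n ≥ (2 √B - 2)(1 - proportion of bad loops)`, and `B ≥ 4.008 n - 1`.
-/

set_option autoImplicit false

namespace Pool.Agent.Lib.MP_c23e5f_co.W

open scoped ENNReal

theorem loops_lower : ∃ C0 : ℝ, 0 < C0 ∧ ∀ n : ℕ, 3 ≤ n →
    Real.exp (-(C0 * √(2 * n) * Real.log (2 * n))) ≤
      ((LoopsW n).ncard : ℝ) * (159 / 400) ^ (2 * n) := by
  obtain ⟨C0, hC0, h⟩ := loop_lower
  obtain ⟨x, hx⟩ := exists_crit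
  refine ⟨C0, hC0, fun n hn => ?_⟩
  have h1 := h x hx (2 * n) ⟨n, by ring⟩ (by omega)
  have h2 : {w | IsLoopWord (2 * n) w} = {w | ∃ f ∈ LoopsW n, w = seg f 0 (2 * n)} := by
    ext w
    rw [loopsW_eq]
    exact isLoopWord_iff (by omega) w
  have h3 := wt_loops (N := 2 * n) (by omega) x (LoopsW n) (fun f hf => by
    rw [loopsW_eq] at hf; exact hf)
  rw [h2, h3] at h1
  have h4 : ((LoopsW n).ncard : ℝ≥0∞) * x ^ (2 * n) ≤
      ENNReal.ofReal (((LoopsW n).ncard : ℝ) * (159 / 400) ^ (2 * n)) := by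
    rw [ENNReal.ofReal_mul (Nat.cast_nonneg _), ENNReal.ofReal_natCast,
      ENNReal.ofReal_pow (by norm_num)]
    gcongr
    exact crit_le hx
  have h5 := h1.trans h4
  rw [ENNReal.ofReal_le_ofReal_iff (by positivity)] at h5
  push_cast at h5
  exact h5

private lemma fw_kappa : 0 < 2 * Real.log fx - 2 * Real.log (159 / 400) -
    501 / 125 * Real.log lam := by
  have h1 : (lam ^ 501 * (159 / 400) ^ 250 : ℝ) < fx ^ 250 := by
    rw [show lam ^ 501 = lam ^ 250 * lam ^ 251 by rw [← pow_add]]
    unfold lam fx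
    norm_num
  have hl : 0 < lam := by unfold lam; norm_num
  have hf : 0 < fx := by unfold fx; norm_num
  have h2 := Real.log_lt_log (by positivity) h1
  rw [Real.log_mul (by positivity) (by positivity), Real.log_pow, Real.log_pow, Real.log_pow] at h2
  push_cast at h2
  linarith

private lemma fw_little (ε : ℝ) (hε : 0 < ε) : ∃ n₀ : ℕ, ∀ n : ℕ, n₀ ≤ n →
    √(2 * n) * Real.log (2 * n) ≤ ε * n := by
  have h1 : (fun x : ℝ => √x * Real.log x) =o[Filter.atTop] (fun x : ℝ => √x * x ^ (1 / 2 : ℝ)) :=
    (Asymptotics.isBigO_refl _ _).mul_isLittleO (isLittleO_log_rpow_atTop (by norm_num))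
  have h2 := h1.def (show (0 : ℝ) < ε / 2 by positivity)
  rw [Filter.eventually_atTop] at h2
  obtain ⟨a, ha⟩ := h2
  refine ⟨max 1 ⌈a⌉₊, fun n hn => ?_⟩
  have hn1 : 1 ≤ n := le_trans (le_max_left _ _) hn
  have hn2 : a ≤ n := by
    have : ⌈a⌉₊ ≤ n := le_trans (le_max_right _ _) hn
    exact (Nat.le_ceil a).trans (by exact_mod_cast this)
  have hn3 : (1 : ℝ) ≤ n := by exact_mod_cast hn1
  have h3 := ha (2 * n) (by linarith)
  have h4 : √(2 * n : ℝ) * (2 * n : ℝ) ^ (1 / 2 : ℝ) = 2 * n := by
    rw [← Real.sqrt_eq_rpow, Real.mul_self_sqrt (by positivity)]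
  have h5 : ‖(2 * n : ℝ)‖ = 2 * n := Real.norm_of_nonneg (by positivity)
  rw [h4, h5] at h3
  calc √(2 * n) * Real.log (2 * n) ≤ ‖√(2 * n) * Real.log (2 * n)‖ := Real.le_norm_self _
    _ ≤ ε / 2 * (2 * n) := h3
    _ = ε * n := by ring

theorem bad_small : ∃ c : ℝ, 0 < c ∧ ∃ n₀ : ℕ, ∀ n : ℕ, n₀ ≤ n →
    ({f ∈ LoopsW n | ((wid n f + 1) * (hgt n f + 1) : ℝ) ≤ 501 / 125 * n}.ncard : ℝ) ≤
      Real.exp (-(c * n)) * ((LoopsW n).ncard : ℝ) := by
  obtain ⟨C0, hC0, hL⟩ := loops_lower
  have hκ := fw_kappa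
  set κ := 2 * Real.log fx - 2 * Real.log (159 / 400) - 501 / 125 * Real.log lam with hκdef
  have hl1 : 1 ≤ lam := by unfold lam; norm_num
  have hl0 : 0 < lam := by linarith
  have hf0 : 0 < fx := by unfold fx; norm_num
  obtain ⟨n₁, hn₁⟩ := fw_little (κ / 2 / (C0 + 11)) (by positivity)
  refine ⟨κ / 2, by positivity, max 3 n₁, fun n hn => ?_⟩
  have hn3 : 3 ≤ n := le_trans (le_max_left _ _) hn
  have hX := hn₁ n (le_trans (le_max_right _ _) hn)
  have hLn := hL n hn3
  set X : ℝ := √(2 * n) * Real.log (2 * n) with hXdef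
  have hnr : (3 : ℝ) ≤ n := by exact_mod_cast hn3
  have hlog1 : 1 ≤ Real.log (2 * n) := by
    rw [Real.le_log_iff_exp_le (by positivity)]
    have := Real.exp_one_lt_d9
    linarith
  have hsq1 : 1 ≤ √(2 * n : ℝ) := by
    rw [Real.one_le_sqrt]
    linarith
  have hX1 : √(2 * n) ≤ X := by
    rw [hXdef]
    exact le_mul_of_one_le_right (by positivity) hlog1
  have hX2 : Real.log (2 * n) ≤ X := by
    rw [hXdef]
    exact le_mul_of_one_le_left (by linarith) hsq1
  have hX3 : 1 ≤ X := hsq1.trans hX1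
  set B : ℕ := ⌊(501 / 125 * n : ℝ)⌋₊ with hB
  have hBn : (B : ℝ) ≤ 501 / 125 * n := Nat.floor_le (by positivity)
  have hsub : {f ∈ LoopsW n | ((wid n f + 1) * (hgt n f + 1) : ℝ) ≤ 501 / 125 * n} ⊆
      {f ∈ LoopsW n | (wid n f + 1) * (hgt n f + 1) ≤ B} := by
    intro f hf
    refine ⟨hf.1, ?_⟩
    apply Nat.le_floor
    push_cast
    exact hf.2
  have hfin : {f ∈ LoopsW n | (wid n f + 1) * (hgt n f + 1) ≤ B}.Finite :=
    (loopsW_finite (by omega)).subset fun f hf => hf.1
  have hbad1 : ({f ∈ LoopsW n | ((wid n f + 1) * (hgt n f + 1) : ℝ) ≤ 501 / 125 * n}.ncard : ℝ) ≤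
      ({f ∈ LoopsW n | (wid n f + 1) * (hgt n f + 1) ≤ B}.ncard : ℝ) := by
    exact_mod_cast Set.ncard_le_ncard hsub hfin
  have hbad2 := bad_count hn3 B
  set bad : ℝ := ({f ∈ LoopsW n | ((wid n f + 1) * (hgt n f + 1) : ℝ) ≤ 501 / 125 * n}.ncard : ℝ)
    with hbad
  -- the factors
  have e1 : (8 : ℝ) ≤ Real.exp (3 * X) := by
    calc (8 : ℝ) = 2 ^ 3 := by norm_num
      _ ≤ (Real.exp 1) ^ 3 := by
          gcongr
          have := Real.add_one_le_exp (1 : ℝ)
          linarith
      _ = Real.exp (3 * 1) := by rw [← Real.exp_nat_mul]; norm_num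
      _ ≤ _ := Real.exp_le_exp.2 (by linarith)
  have e2 : (B : ℝ) ^ 3 ≤ Real.exp (6 * X) := by
    have h1 : (B : ℝ) ≤ (2 * n) ^ 2 := by
      refine hBn.trans ?_
      nlinarith
    calc (B : ℝ) ^ 3 ≤ ((2 * n : ℝ) ^ 2) ^ 3 := by gcongr
      _ = (Real.exp (Real.log (2 * n))) ^ 6 := by rw [Real.exp_log (by positivity)]; ring
      _ = Real.exp (6 * Real.log (2 * n)) := by rw [← Real.exp_nat_mul]; norm_num
      _ ≤ _ := Real.exp_le_exp.2 (by linarith)
  have e3 : ((3 : ℝ) / 2) ^ (Nat.sqrt B) ≤ Real.exp (2 * X) := by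
    have h1 : (Nat.sqrt B : ℝ) ≤ 2 * √(2 * n) := by
      have h2 : (Nat.sqrt B : ℝ) ≤ √(B : ℝ) := by
        apply Real.le_sqrt_of_sq_le
        have h9 : Nat.sqrt B * Nat.sqrt B ≤ B := Nat.sqrt_le _
        rw [pow_two]
        exact_mod_cast h9
      refine h2.trans ?_
      rw [Real.sqrt_le_left (by positivity), mul_pow, Real.sq_sqrt (by positivity)]
      linarith
    calc ((3 : ℝ) / 2) ^ (Nat.sqrt B) ≤ (Real.exp 1) ^ (Nat.sqrt B) := by
          gcongr
          have := Real.add_one_le_exp (1 : ℝ)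
          linarith
      _ = Real.exp (Nat.sqrt B) := by rw [← Real.exp_nat_mul, mul_one]
      _ ≤ _ := Real.exp_le_exp.2 (by linarith)
  have e4 : lam ^ B ≤ Real.exp (501 / 125 * Real.log lam * n) := by
    calc lam ^ B = (Real.exp (Real.log lam)) ^ B := by rw [Real.exp_log hl0]
      _ = Real.exp (B * Real.log lam) := by rw [← Real.exp_nat_mul]
      _ ≤ _ := Real.exp_le_exp.2 (by
        have := mul_le_mul_of_nonneg_right hBn (Real.log_nonneg hl1)
        linarith)
  have e5 : fx ^ (2 * n) = Real.exp (2 * n * Real.log fx) := by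
    calc fx ^ (2 * n) = (Real.exp (Real.log fx)) ^ (2 * n) := by rw [Real.exp_log hf0]
      _ = _ := by rw [← Real.exp_nat_mul]; push_cast; rfl
  have e6 : ((159 : ℝ) / 400) ^ (2 * n) = Real.exp (2 * n * Real.log (159 / 400)) := by
    calc ((159 : ℝ) / 400) ^ (2 * n) = (Real.exp (Real.log (159 / 400))) ^ (2 * n) := by
          rw [Real.exp_log (by norm_num)]
      _ = _ := by rw [← Real.exp_nat_mul]; push_cast; rfl
  rw [e6] at hLn
  -- the bound for the bad loops
  have hprod : 8 * (B : ℝ) ^ 3 * (3 / 2) ^ (Nat.sqrt B) * lam ^ B ≤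
      Real.exp (11 * X + 501 / 125 * Real.log lam * n) := by
    calc 8 * (B : ℝ) ^ 3 * (3 / 2) ^ (Nat.sqrt B) * lam ^ B ≤
        Real.exp (3 * X) * Real.exp (6 * X) * Real.exp (2 * X) *
          Real.exp (501 / 125 * Real.log lam * n) := by gcongr
      _ = _ := by
        rw [← Real.exp_add, ← Real.exp_add, ← Real.exp_add]
        congr 1
        ring
  have hb1 : bad * Real.exp (2 * n * Real.log fx) ≤
      Real.exp (11 * X + 501 / 125 * Real.log lam * n) := by
    rw [e5] at hbad2
    calc bad * Real.exp (2 * n * Real.log fx) ≤ _ :=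
          mul_le_mul_of_nonneg_right hbad1 (Real.exp_pos _).le
      _ ≤ _ := hbad2
      _ ≤ _ := hprod
  have hb2 : bad ≤ Real.exp (11 * X + 501 / 125 * Real.log lam * n - 2 * n * Real.log fx) := by
    rw [Real.exp_sub, le_div_iff₀ (Real.exp_pos _)]
    exact hb1
  have hL2 : Real.exp (-(C0 * √(2 * n) * Real.log (2 * n)) - 2 * n * Real.log (159 / 400)) ≤
      ((LoopsW n).ncard : ℝ) := by
    rw [Real.exp_sub, div_le_iff₀ (Real.exp_pos _)]
    exact hLn
  calc bad ≤ _ := hb2
    _ ≤ Real.exp (-(κ / 2 * n) +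
        (-(C0 * √(2 * n) * Real.log (2 * n)) - 2 * n * Real.log (159 / 400))) := by
        apply Real.exp_le_exp.2
        have h1 : (C0 + 11) * X ≤ κ / 2 * n := by
          calc (C0 + 11) * X ≤ (C0 + 11) * (κ / 2 / (C0 + 11) * n) := by gcongr
            _ = κ / 2 * n := by field_simp
        have h2 : C0 * √(2 * n) * Real.log (2 * n) = C0 * X := by rw [hXdef]; ring
        have h3 : κ * n = 2 * n * Real.log fx - 2 * n * Real.log (159 / 400) -
            501 / 125 * Real.log lam * n := by rw [hκdef]; ring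
        rw [h2]
        linarith
    _ = Real.exp (-(κ / 2 * n)) *
        Real.exp (-(C0 * √(2 * n) * Real.log (2 * n)) - 2 * n * Real.log (159 / 400)) := by
        rw [Real.exp_add]
    _ ≤ _ := mul_le_mul_of_nonneg_left hL2 (Real.exp_pos _).le

theorem final_two : ∃ n₀ : ℕ, ∀ n : ℕ, n₀ ≤ n →
    2 * √n ≤ (∑ᶠ f ∈ LoopsW n, (wid n f : ℝ)) / ((LoopsW n).ncard : ℕ) := by
  classical
  obtain ⟨C0, hC0, hL⟩ := loops_lower
  obtain ⟨c, hc, n₁, hb⟩ := bad_small
  refine ⟨max n₁ (max 360000 ⌈10000 / c⌉₊), fun n hn => ?_⟩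
  have hn1 : n₁ ≤ n := le_trans (le_max_left _ _) hn
  have hn2 : 360000 ≤ n := le_trans (le_trans (le_max_left _ _) (le_max_right _ _)) hn
  have hn3 : ⌈10000 / c⌉₊ ≤ n := le_trans (le_trans (le_max_right _ _) (le_max_right _ _)) hn
  have hcn : 10000 ≤ c * n := by
    have h1 : 10000 / c ≤ n := (Nat.le_ceil _).trans (by exact_mod_cast hn3)
    rw [div_le_iff₀ hc] at h1
    linarith
  have hn' : 1 ≤ n := by omega
  have hbn := hb n hn1
  have hLn := hL n (by omega)
  have hfin := loopsW_finite hn'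
  set S := hfin.toFinset with hS
  have hcard : ((LoopsW n).ncard : ℝ) = (S.card : ℝ) := by
    rw [Set.ncard_eq_toFinset_card _ hfin]
  have hL0 : 0 < ((LoopsW n).ncard : ℝ) := by
    by_contra h0
    have h1 : ((LoopsW n).ncard : ℝ) = 0 := le_antisymm (not_lt.1 h0) (Nat.cast_nonneg _)
    rw [h1, zero_mul] at hLn
    exact absurd hLn (not_le.2 (Real.exp_pos _))
  rw [le_div_iff₀ hL0, finsum_mem_eq_finite_toFinset_sum _ hfin]
  have hsum := sum_wid_eq_sum_hgt hn'
  change ∑ f ∈ S, (wid n f : ℝ) = ∑ f ∈ S, (hgt n f : ℝ) at hsum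
  change 2 * √n * ((LoopsW n).ncard : ℝ) ≤ ∑ f ∈ S, (wid n f : ℝ)
  set P : (ℕ → ℤ × ℤ) → Prop := fun f =>
    ((wid n f + 1) * (hgt n f + 1) : ℝ) ≤ 501 / 125 * n with hP
  have hbadS : ((S.filter P).card : ℝ) =
      ({f ∈ LoopsW n | ((wid n f + 1) * (hgt n f + 1) : ℝ) ≤ 501 / 125 * n}.ncard : ℝ) := by
    rw [← Set.ncard_coe_finset]
    congr 2
    ext f
    simp [hS, hP]
  set L : ℝ := ((LoopsW n).ncard : ℝ) with hLdef
  have hsplit : ((S.filter P).card : ℝ) + ((S.filter (fun f => ¬ P f)).card : ℝ) = L := by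
    rw [hcard]
    exact_mod_cast S.card_filter_add_card_filter_not P
  have hbad : ((S.filter P).card : ℝ) ≤ 1 / 10000 * L := by
    rw [hbadS]
    refine hbn.trans (mul_le_mul_of_nonneg_right ?_ hL0.le)
    rw [Real.exp_neg, one_div]
    apply inv_anti₀ (by norm_num)
    have := Real.add_one_le_exp (c * n)
    linarith
  set s : ℝ := √n with hs
  have hs0 : 0 ≤ s := Real.sqrt_nonneg _
  have hs2 : s ^ 2 = n := Real.sq_sqrt (Nat.cast_nonneg _)
  have hs600 : 600 ≤ s := by
    apply Real.le_sqrt_of_sq_le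
    have : (360000 : ℝ) ≤ n := by exact_mod_cast hn2
    linarith
  have hgood : ∀ f ∈ S.filter (fun f => ¬ P f), 4.0038 * s - 2 ≤ (wid n f : ℝ) + hgt n f := by
    intro f hf
    rw [Finset.mem_filter] at hf
    have h1 : 501 / 125 * n < ((wid n f + 1) * (hgt n f + 1) : ℝ) := not_le.1 hf.2
    have h2 : (0 : ℝ) ≤ wid n f := Nat.cast_nonneg _
    have h3 : (0 : ℝ) ≤ hgt n f := Nat.cast_nonneg _
    have h4 : (4.0038 * s) ^ 2 ≤ ((wid n f + 1 : ℝ) + (hgt n f + 1)) ^ 2 := by
      rw [mul_pow, hs2]
      nlinarith [sq_nonneg ((wid n f + 1 : ℝ) - (hgt n f + 1))]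
    have h5 := (sq_le_sq₀ (by positivity) (by positivity)).1 h4
    linarith
  have hA : ((S.filter (fun f => ¬ P f)).card : ℝ) * (4.0038 * s - 2) ≤
      ∑ f ∈ S, ((wid n f : ℝ) + hgt n f) := by
    calc ((S.filter (fun f => ¬ P f)).card : ℝ) * (4.0038 * s - 2) =
        ∑ f ∈ S.filter (fun f => ¬ P f), (4.0038 * s - 2) := by
          rw [Finset.sum_const, nsmul_eq_mul]
      _ ≤ ∑ f ∈ S.filter (fun f => ¬ P f), ((wid n f : ℝ) + hgt n f) := Finset.sum_le_sum hgood
      _ ≤ _ := Finset.sum_le_sum_of_subset_of_nonneg (Finset.filter_subset _ _)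
          (fun f _ _ => by positivity)
  rw [Finset.sum_add_distrib, ← hsum] at hA
  have hgc : (9999 / 10000) * L ≤ ((S.filter (fun f => ¬ P f)).card : ℝ) := by linarith
  have h9 : (9999 / 10000) * L * (4.0038 * s - 2) ≤
      ((S.filter (fun f => ¬ P f)).card : ℝ) * (4.0038 * s - 2) :=
    mul_le_mul_of_nonneg_right hgc (by linarith)
  have h10 : 4 * s * L ≤ (9999 / 10000) * L * (4.0038 * s - 2) := by
    have h11 : 0 ≤ L * ((9999 / 10000) * (4.0038 * s - 2) - 4 * s) :=
      mul_nonneg hL0.le (by linarith)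
    linarith
  linarith

end Pool.Agent.Lib.MP_c23e5f_co.W
end
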